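import Pool.Agent.Q21.CO.Main

/-!
The degree congruence.
-/

set_option linter.unusedSectionVars false

open scoped BigOperators Classical
open Pool.Agent.Helper884 Representation Pool.Agent.H254R3.IN Pool.Agent.Y62

noncomputable section

namespace Pool.Agent.Q21.CO

variable {G : Type} [Group G] [Fintype G]

variable {O : ValuationSubring ℂ} {p : ℕ} [hp : Fact p.Prime]

lemma uu_eq (D : Subgroup G) (χ : G → ℂ) : uu D χ = χ 1 / (D.index : ℂ) := by
  unfold uu
  have h1 := Subgroup.card_mul_index D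
  have h2 : (Nat.card G : ℂ) = (Nat.card D : ℂ) * D.index := by
    rw [← h1]
    push_cast
    rfl
  have hD0 : (Nat.card D : ℂ) ≠ 0 := by exact_mod_cast Nat.card_pos.ne'
  have hi0 : (D.index : ℂ) ≠ 0 := by exact_mod_cast Subgroup.index_ne_zero_of_finite
  rw [h2]
  field_simp

/-- the index prime to `p` -/
lemma uu_part {D : Subgroup G} {χ : G → ℂ} {n : ℕ} (hn : (n : ℂ) = χ 1) (hn0 : n ≠ 0)
    (hf : n.factorization p = D.index.factorization p) :
    uu D χ * (pPrimePart p D.index : ℂ) = pPrimePart p n := by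
  have hi0 : D.index ≠ 0 := Subgroup.index_ne_zero_of_finite
  obtain ⟨h1, _⟩ := pPrimePart_spec (p := p) hn0
  obtain ⟨h2, _⟩ := pPrimePart_spec (p := p) hi0
  rw [uu_eq, ← hn]
  have h3 : (n : ℂ) = (p : ℂ) ^ n.factorization p * pPrimePart p n := by exact_mod_cast h1
  have h4 : (D.index : ℂ) = (p : ℂ) ^ n.factorization p * pPrimePart p D.index := by
    rw [hf]
    exact_mod_cast h2
  have hi0' : (D.index : ℂ) ≠ 0 := by exact_mod_cast hi0
  rw [h3, h4]
  rw [h4] at hi0'
  have h5 := left_ne_zero_of_mul hi0'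
  have h6 := right_ne_zero_of_mul hi0'
  field_simp

lemma part_mul {a b : ℕ} (hb : b ≠ 0) (ha : ¬ p ∣ a) :
    pPrimePart p (a * b) = a * pPrimePart p b := by
  have ha0 : a ≠ 0 := by
    rintro rfl
    exact ha (dvd_zero _)
  unfold pPrimePart
  rw [Nat.factorization_mul ha0 hb, Finsupp.add_apply, Nat.factorization_eq_zero_of_not_dvd ha,
    zero_add]
  exact Nat.mul_div_assoc _ (Nat.ordProj_dvd b p)

theorem deg_cong (hpO : (p : ℂ) ∈ O.nonunits) {D : Subgroup G} {P : Sylow p G}
    (hP : (P : Subgroup G) ≤ NN D) {χ : G → ℂ} {ψ : NN D → ℂ} {ε : ℤ}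
    (hu : uu D χ ∈ O) (hu' : uu (DD D) ψ ∈ O)
    (h : red O (uu D χ) = red O (ε : ℂ) * red O (uu (DD D) ψ)) {n m : ℕ} (hn : (n : ℂ) = χ 1)
    (hm : (m : ℂ) = ψ 1) (hn0 : n ≠ 0) (hm0 : m ≠ 0)
    (hfn : n.factorization p = D.index.factorization p)
    (hfm : m.factorization p = (DD D).index.factorization p) :
    (pPrimePart p n : ℤ) ≡ ε * ((NN D).index * pPrimePart p m) [ZMOD p] := by
  have := charP_RF hpO
  have h1 := uu_part hn hn0 hfn
  have h2 := uu_part hm hm0 hfm
  have hidx : ¬ p ∣ (NN D).index := fun h3 =>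
    P.not_dvd_index (h3.trans (Subgroup.index_dvd_of_le hP))
  have h3 : D.index = (NN D).index * (DD D).index := by
    rw [mul_comm]
    exact (Subgroup.relIndex_mul_index (le_NN D)).symm
  have h4 : pPrimePart p D.index = (NN D).index * pPrimePart p (DD D).index := by
    rw [h3]
    exact part_mul Subgroup.index_ne_zero_of_finite hidx
  rw [← CharP.intCast_eq_intCast (RF O) p]
  have h5 := congrArg (red O) h1
  have h6 := congrArg (red O) h2
  rw [red_mul hu (natCast_mem' _), red_natCast, red_natCast] at h5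
  rw [red_mul hu' (natCast_mem' _), red_natCast, red_natCast] at h6
  rw [h, h4, red_intCast, Nat.cast_mul] at h5
  push_cast
  rw [← h5, ← h6]
  ring

end Pool.Agent.Q21.CO
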