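import Pool.Agent.Q21.CO.Blk
import Pool.Agent.Y824.GA.Irr

/-!
The correspondence between the characters of height zero.
-/

set_option linter.unusedSectionVars false

open scoped BigOperators Classical
open Pool.Agent.Helper884 Representation Pool.Agent.H254R3.IN Pool.Agent.Y62

noncomputable section

namespace Pool.Agent.Q21.CO

variable {G : Type} [Group G] [Fintype G]

variable {O : ValuationSubring ℂ} {p : ℕ} [hp : Fact p.Prime]

lemma Rel.gal {l : G →* ℂˣ} {c : ℂˣ} {H : Subgroup G} {χ : G → ℂ} {ψ : H → ℂ}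
    (h : Rel p l c H χ ψ) (σ : ℂ ≃+* ℂ) :
    Rel p l c H (fun g => σ (χ g)) (fun g => σ (ψ g)) := by
  obtain ⟨ε, hε, hval⟩ := h
  refine ⟨ε, hε, fun k hk => ?_⟩
  change σ (χ k) = ε * σ (ψ k)
  rw [hval k hk, map_mul, map_intCast]

/-- the data for a block -/
structure BD (p : ℕ) (O : ValuationSubring ℂ) (N D : Subgroup G) (y : G) (P : Sylow p G)
    (B : Set (G → ℂ)) (b : Set (Subgroup.normalizer (D : Set G) → ℂ)) : Prop where
  hpO : (p : ℂ) ∈ O.nonunits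
  d : Dat p N y (NN D) P
  hy : y ∈ D
  hB : IsBlock O B
  hD : IsDefectGroup p O B D
  hb : IsBrauerCorrespondent p O D B b

namespace BD

variable {N D : Subgroup G} {y : G} {P : Sylow p G} {B : Set (G → ℂ)}
    {b : Set (Subgroup.normalizer (D : Set G) → ℂ)} (e : BD p O N D y P B b)

include e

/-- the correspondence as a relation; everything we need -/
theorem rel : ∃ (l : G →* ℂˣ) (s : NN D), (∀ g, l g = 1 ↔ g ∈ N) ∧
    ((s : G) ∈ Subgroup.centralizer (D : Set G) ∧ ¬ p ∣ kk D (s : G)) ∧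
    (∀ χ ∈ B, red O (uu D χ) ≠ 0 → ∃ ψ ∈ b, red O (uu (DD D) ψ) ≠ 0 ∧ Rel p l (l y) (NN D) χ ψ) ∧
    (∀ ψ ∈ b, red O (uu (DD D) ψ) ≠ 0 → ∃ χ ∈ B, red O (uu D χ) ≠ 0 ∧ Rel p l (l y) (NN D) χ ψ) ∧
    (∀ χ ∈ B, red O (uu D χ) ≠ 0 → ∀ ψ ψ', IsIrr ψ → IsIrr ψ' → Rel p l (l y) (NN D) χ ψ →
      Rel p l (l y) (NN D) χ ψ' → ψ = ψ') ∧
    (∀ χ ∈ B, red O (uu D χ) ≠ 0 → ∀ χ', IsIrr χ' → ∀ ψ, IsIrr ψ → Rel p l (l y) (NN D) χ ψ →
      Rel p l (l y) (NN D) χ' ψ → χ = χ') ∧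
    (∀ χ ∈ B, ∀ ψ ∈ b, red O (uu D χ) ≠ 0 → ∀ ε : ℤ,
      (∀ k : NN D, l k = l y → χ k = ε * ψ k) → red O (uu D χ) =
        red O (ε : ℂ) * red O (uu (DD D) ψ)) := by
  have hpO := e.hpO
  have := charP_RF hpO
  have hDp : IsPGroup p D := defect_pgroup e.hD
  obtain ⟨l, hl⟩ := e.d.exists_lin
  obtain ⟨q, S⟩ := e.d.setup hl
  obtain ⟨s, hsp, hsk, hsB, hsb⟩ := exists_s hpO e.hB e.hD e.hb
  have hls : l (s : G) = 1 := by
    obtain ⟨k, hk⟩ := S.hq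
    refine lin_regular (p := p) (k := k + 1) (fun g => ?_) hsp.1
    rw [pow_succ', ← hk]
    exact S.hl g
  have hys : Commute y (s : G) := Subgroup.mem_centralizer_iff.mp hsp.2 y e.hy
  have hsC : s ∈ Subgroup.centralizer (DD D : Set (NN D)) := (mem_cent_DD s).mpr hsp.2
  have hkk : ¬ p ∣ kk (DD D) s := fun h =>
    hsk (((kk_modEq hDp s hsp.2).dvd_iff dvd_rfl).mp h)
  have hht : ∀ χ ∈ B, (red O (χ s) ≠ 0 ↔ red O (uu D χ) ≠ 0) := fun χ hχ =>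
    height_val hpO (e.hB.irr χ hχ) (uu_mem hpO e.hB e.hD hχ) hsp.2 hsk (hsB χ hχ)
  have hht' : ∀ ψ ∈ b, (red O (ψ s) ≠ 0 ↔ red O (uu (DD D) ψ) ≠ 0) := fun ψ hψ =>
    height_val hpO (e.hb.1.irr ψ hψ) (uu_mem hpO e.hb.1 e.hb.2.1 hψ) hsC hkk (hsb ψ hψ)
  obtain ⟨k₀, hk₀⟩ := e.d.ord_y
  have hyH : y ∈ NN D := le_NN D e.hy
  have hys' : Commute (⟨y, hyH⟩ : NN D) s := Subtype.ext hys
  have hk₀' : orderOf (⟨y, hyH⟩ : NN D) = p ^ k₀ := by
    rw [Subgroup.orderOf_mk]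
    exact hk₀
  have hne : ∀ χ : G → ℂ, IsIrr χ → red O (χ s) ≠ 0 → χ (y * s) ≠ 0 := by
    intro χ hχ h h0
    apply h
    have := val_red hpO hχ hk₀ hys 1
    rw [pow_one, h0, red_zero] at this
    exact this.symm
  have hne' : ∀ ψ : NN D → ℂ, IsIrr ψ → red O (ψ s) ≠ 0 → ψ (⟨y, hyH⟩ * s) ≠ 0 := by
    intro ψ hψ h h0
    apply h
    have := val_red hpO hψ hk₀' hys' 1
    rw [pow_one, h0, red_zero] at this
    exact this.symm
  have hlys : l (y * s) = l y := by rw [map_mul, hls, mul_one]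
  have hεne : ∀ {χ : G → ℂ} {ψ : NN D → ℂ}, IsIrr χ → IsIrr ψ → Rel p l (l y) (NN D) χ ψ →
      (red O (χ s) ≠ 0 ↔ red O (ψ s) ≠ 0) := by
    intro χ ψ hχ hψ hR
    obtain ⟨ε, hε, hval⟩ := hR
    have h1 := hval (⟨y, hyH⟩ * s) hlys
    have h2 := val_red hpO hχ hk₀ hys 1
    have h3 := val_red hpO hψ hk₀' hys' 1
    rw [pow_one] at h2 h3
    have h4 : red O (χ s) = red O (ε : ℂ) * red O (ψ s) := by
      rw [← h2, ← h3, ← red_mul (intCast_mem' ε) (hψ.val_mem O _)]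
      exact congrArg _ h1
    have h5 : red O (ε : ℂ) ≠ 0 := by
      have : (ε : ℂ) * ε = 1 := by
        rcases hε with h | ⟨h, _⟩ <;> rw [h] <;> norm_num
      exact red_ne_zero_of_mul (intCast_mem' ε) (intCast_mem' ε) this
    rw [h4]
    exact ⟨fun h => right_ne_zero_of_mul h, fun h => mul_ne_zero h5 h⟩
  refine ⟨l, s, hl, ⟨hsp.2, hsk⟩, ?_, ?_, ?_, ?_, ?_⟩
  · intro χ hχ hh
    have hχi := e.hB.irr χ hχ
    have h1 := (hht χ hχ).mpr hh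
    obtain ⟨ψ, hψ, hR⟩ := S.right hχi hlys (hne χ hχi h1)
    have h2 := (hεne hχi hψ hR).mp h1
    obtain ⟨θ, hθ⟩ := e.hb.1.nonempty
    have h3 := same_block hpO hDp hχi (e.hb.1.irr θ hθ) hψ (e.hb.2.2 χ hχ θ hθ)
      (fun x => (ind_block e.d hl hpO hχi hψ hR hls hys h1 x).2) hsp.2 hsk (hsB χ hχ)
    have h4 : ψ ∈ b := block_of_red e.hb.1 hθ hψ h3
    exact ⟨ψ, h4, (hht' ψ h4).mp h2, hR⟩
  · intro ψ hψ hh
    have hψi := e.hb.1.irr ψ hψ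
    have h1 := (hht' ψ hψ).mpr hh
    obtain ⟨χ, hχ, hR⟩ := S.left hψi (h := ⟨y, hyH⟩ * s) hlys (hne' ψ hψi h1)
    have h2 := (hεne hχ hψi hR).mpr h1
    obtain ⟨χ₀, hχ₀⟩ := e.hB.nonempty
    have hχ₀i := e.hB.irr χ₀ hχ₀
    have h3 : ∀ x, red O (omega χ x) = red O (omega χ₀ x) := by
      intro x
      rw [induced_sum hχ hψi (ind_block e.d hl hpO hχ hψi hR hls hys h2 x).2,
        induced_sum hχ₀i hψi (e.hb.2.2 χ₀ hχ₀ ψ hψ x)]
    have h4 : χ ∈ B := block_of_red e.hB hχ₀ hχ h3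
    exact ⟨χ, h4, (hht χ h4).mp h2, hR⟩
  · intro χ hχ hh ψ ψ' hψ hψ' hR hR'
    have hχi := e.hB.irr χ hχ
    have h1 := (hεne hχi hψ hR).mp ((hht χ hχ).mpr hh)
    exact S.right_unique hψ hψ' hR hR' (k := ⟨y, hyH⟩ * s) hlys (hne' ψ hψ h1)
  · intro χ hχ hh χ' hχ' ψ hψ hR hR'
    have hχi := e.hB.irr χ hχ
    exact S.left_unique hχi hχ' hR hR' hlys (hne χ hχi ((hht χ hχ).mpr hh))
  · intro χ hχ ψ hψ hh ε hval
    have hχi := e.hB.irr χ hχ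
    have hψi := e.hb.1.irr ψ hψ
    have h1 := hval (⟨y, hyH⟩ * s) hlys
    have h2 := val_red hpO hχi hk₀ hys 1
    have h3 := val_red hpO hψi hk₀' hys' 1
    rw [pow_one] at h2 h3
    have h4 : red O (χ s) = red O (ε : ℂ) * red O (ψ s) := by
      rw [← h2, ← h3, ← red_mul (intCast_mem' ε) (hψi.val_mem O _)]
      exact congrArg _ h1
    have hu := uu_mem hpO e.hB e.hD hχ
    have hu' := uu_mem hpO e.hb.1 e.hb.2.1 hψ
    rw [val_eq_kk hχi (IsConj.refl (s : G)) hsp.2, val_eq_kk hψi (IsConj.refl s) hsC,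
      red_mul (O.mul_mem _ _ (hχi.omega_mem O _) hu) (natCast_mem' _),
      red_mul (O.mul_mem _ _ (hψi.omega_mem O _) hu') (natCast_mem' _),
      red_mul (hχi.omega_mem O _) hu, red_mul (hψi.omega_mem O _) hu', red_natCast, red_natCast,
      ← lam_eq hpO hDp hχi hψi (e.hb.2.2 χ hχ ψ hψ) hsp hsk,
      (CharP.natCast_eq_natCast (RF O) p).mpr (kk_modEq hDp s hsp.2)] at h4
    have h5 : ((kk D (s : G) : ℕ) : RF O) ≠ 0 := fun h =>
      hsk ((CharP.cast_eq_zero_iff (RF O) p (kk D (s : G))).mp h)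
    have h6 := mul_ne_zero (hsB χ hχ) h5
    apply mul_left_cancel₀ h6
    calc red O (omega χ s) * (kk D (s : G) : RF O) * red O (uu D χ)
        = red O (omega χ s) * red O (uu D χ) * (kk D (s : G) : RF O) := by ring
      _ = _ := by rw [h4]; ring

end BD

end Pool.Agent.Q21.CO
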