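import Pool.Agent.Q21.CO.Core

/-!
The correspondence of characters.
-/

set_option linter.unusedSectionVars false

open scoped BigOperators Classical
open Pool.Agent.Helper884 Representation Pool.Agent.H254R3.IN Pool.Agent.Y62

noncomputable section

namespace Pool.Agent.Q21.CO

/-- uniqueness -/
lemma uniq {K : Type} [Group K] [Fintype K] {p k : ℕ} [hp : Fact p.Prime] {l : K →* ℂˣ} {c : ℂˣ}
    (hl : ∀ g, l g ^ (p * p ^ k) = 1) (hc : orderOf c = p * p ^ k) {f f' : K → ℂ} (hf : IsIrr f)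
    (hf' : IsIrr f') {δ : ℤ} (hδ : δ = 1 ∨ (δ = -1 ∧ p ≠ 2))
    (h : ∀ g, l g = c → f' g = δ * f g) {g : K} (hg : l g = c) (hfg : f g ≠ 0) : f = f' := by
  set n := p * p ^ k with hn
  have hn0 : 0 < n := Nat.mul_pos hp.out.pos (pow_pos hp.out.pos _)
  have hcn : c ^ n = 1 := by rw [← hc, pow_orderOf_eq_one]
  have h1 : cs l c n f f' = δ := by
    have h2 := cs_self hn0 hl hc (t := 1) hf hg hfg
    rw [pow_one] at h2
    have h3 : cs l c n f f' = δ * cs l c n f f := by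
      unfold cs
      have : ∀ x : K, (if l x = c then f x * f' x⁻¹ else 0) =
          (δ : ℂ) * (if l x = c then f x * f x⁻¹ else 0) := by
        intro x
        split_ifs with hx
        · rw [conj_char hf', h x hx, conj_char hf, map_mul, map_intCast]
          ring
        · rw [mul_zero]
      rw [Finset.sum_congr rfl fun x _ => this x, ← Finset.mul_sum]
      ring
    rw [h3, h2, mul_one]
  have hδ0 : (δ : ℂ) ≠ 0 := by
    rcases hδ with h2 | ⟨h2, _⟩ <;> rw [h2] <;> norm_num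
  rw [cs_irr hl hcn hf hf'] at h1
  have h4 : ∃ j ∈ Finset.range n, tw (l ^ j) f = f' := by
    by_contra hcon
    push Not at hcon
    apply hδ0
    rw [← h1]
    apply Finset.sum_eq_zero
    intro j hj
    rw [if_neg (hcon j hj), mul_zero]
  obtain ⟨j, hj, hjf⟩ := h4
  have h5 := congrFun hjf g
  rw [tw_pow, hg, h g hg] at h5
  have h6 : (c : ℂ) ^ j = δ := mul_right_cancel₀ hfg h5
  rcases hδ with h7 | ⟨h7, hp2⟩
  · rw [h7] at h6
    have h8 : c ^ j = 1 := by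
      apply Units.ext
      rw [Units.val_pow_eq_pow_val, h6]
      simp
    have h9 := orderOf_dvd_of_pow_eq_one h8
    rw [hc] at h9
    have h10 : j = 0 := Nat.eq_zero_of_dvd_of_lt h9 (Finset.mem_range.mp hj)
    rw [← hjf, h10, tw_zero]
  · exfalso
    rw [h7] at h6
    have h8 : c ^ (2 * j) = 1 := by
      apply Units.ext
      rw [Units.val_pow_eq_pow_val, mul_comm, pow_mul, h6]
      simp
    have h9 := orderOf_dvd_of_pow_eq_one h8
    rw [hc] at h9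
    have h10 : Nat.Coprime n 2 := by
      rw [hn, ← pow_succ']
      exact Nat.Coprime.pow_left _ ((Nat.coprime_primes hp.out Nat.prime_two).mpr hp2)
    have h11 : n ∣ j := h10.dvd_of_dvd_mul_left h9
    have h12 : c ^ j = 1 := by rw [← orderOf_dvd_iff_pow_eq_one, hc]; exact h11
    have h13 : (c : ℂ) ^ j = 1 := by
      rw [← Units.val_pow_eq_pow_val, h12, Units.val_one]
    rw [h13] at h6
    norm_num at h6

variable {G : Type} [Group G] [Fintype G]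

/-- the relation between characters of `G` and `H` -/
def Rel (p : ℕ) (l : G →* ℂˣ) (c : ℂˣ) (H : Subgroup G) (χ : G → ℂ) (ψ : H → ℂ) : Prop :=
  ∃ ε : ℤ, (ε = 1 ∨ (ε = -1 ∧ p ≠ 2)) ∧ ∀ k : H, l k = c → χ k = ε * ψ k

section

variable {p q : ℕ} [hp : Fact p.Prime] {l : G →* ℂˣ} {c : ℂˣ} {H : Subgroup G}
  (s : Setup p q l c H)

/-- absorb the sign -/
lemma sign_exp {n : ℕ} (hc : orderOf c = n) (h2 : 2 ∣ n) (hn : 0 < n) :
    ((c : ℂ) ^ (n / 2)) = -1 := by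
  have h1 : (c : ℂ) ^ n = 1 := by
    rw [← Units.val_pow_eq_pow_val, ← hc, pow_orderOf_eq_one, Units.val_one]
  have h3 : ((c : ℂ) ^ (n / 2)) ^ 2 = 1 := by
    rw [← pow_mul, Nat.div_mul_cancel h2, h1]
  rw [sq] at h3
  rcases mul_self_eq_one_iff.mp h3 with h4 | h4
  · exfalso
    have h5 : c ^ (n / 2) = 1 := by
      apply Units.ext
      rw [Units.val_pow_eq_pow_val, h4, Units.val_one]
    have h6 := orderOf_dvd_of_pow_eq_one h5
    rw [hc] at h6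
    have h7 := Nat.le_of_dvd (by omega) h6
    omega
  · exact h4

include s

/-- core with twists on the right -/
lemma Setup.core_right {χ : G → ℂ} (hχ : IsIrr χ) {ψ : H → ℂ} (hψ : IsIrr ψ)
    (h : cs (lr l H) c (p * q) (rs H χ) ψ ≠ 0) :
    ∃ ψ' : H → ℂ, IsIrr ψ' ∧ Rel p l c H χ ψ' := by
  obtain ⟨j, ε, hε, hval⟩ := s.core hχ hψ h
  by_cases hcase : ε = -1 ∧ p = 2
  · obtain ⟨hε1, hp2⟩ := hcase
    refine ⟨tw ((lr l H) ^ (p * q / 2)) (tw (((lr l H)⁻¹) ^ j) ψ), tw_irr _ (tw_irr _ hψ), 1,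
      Or.inl rfl, fun k hk => ?_⟩
    rw [hval k hk, tw_pow, tw_pow]
    have h1 : (lr l H) k = c := hk
    have h2 : (lr l H)⁻¹ k = c⁻¹ := by rw [MonoidHom.inv_apply, h1]
    rw [h1, h2, sign_exp s.hc (by rw [hp2]; exact dvd_mul_right _ _) s.n_pos, hε1]
    push_cast
    ring
  · refine ⟨tw (((lr l H)⁻¹) ^ j) ψ, tw_irr _ hψ, ε, ?_, fun k hk => ?_⟩
    · rcases hε with h1 | h1
      · exact Or.inl h1
      · exact Or.inr ⟨h1, fun h2 => hcase ⟨h1, h2⟩⟩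
    · rw [hval k hk, tw_pow]
      have h1 : (lr l H) k = c := hk
      have h2 : (lr l H)⁻¹ k = c⁻¹ := by rw [MonoidHom.inv_apply, h1]
      rw [h2]
      ring

lemma Setup.core_left {χ : G → ℂ} (hχ : IsIrr χ) {ψ : H → ℂ} (hψ : IsIrr ψ)
    (h : cs (lr l H) c (p * q) (rs H χ) ψ ≠ 0) :
    ∃ χ' : G → ℂ, IsIrr χ' ∧ Rel p l c H χ' ψ := by
  obtain ⟨j, ε, hε, hval⟩ := s.core hχ hψ h
  have hcc : ((c⁻¹ : ℂˣ) : ℂ) ^ j * (c : ℂ) ^ j = 1 := by
    rw [← mul_pow, ← Units.val_mul, inv_mul_cancel, Units.val_one, one_pow]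
  by_cases hcase : ε = -1 ∧ p = 2
  · obtain ⟨hε1, hp2⟩ := hcase
    refine ⟨tw (l ^ (p * q / 2)) (tw (l ^ j) χ), tw_irr _ (tw_irr _ hχ), 1,
      Or.inl rfl, fun k hk => ?_⟩
    rw [tw_pow, tw_pow, hval k hk, hk,
      sign_exp s.hc (by rw [hp2]; exact dvd_mul_right _ _) s.n_pos, hε1, Int.cast_neg,
      Int.cast_one]
    calc (-1 : ℂ) * ((c : ℂ) ^ j * (-1 * ((c⁻¹ : ℂˣ) : ℂ) ^ j * ψ k))
        = (((c⁻¹ : ℂˣ) : ℂ) ^ j * (c : ℂ) ^ j) * ψ k := by ring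
      _ = 1 * ψ k := by rw [hcc]
  · refine ⟨tw (l ^ j) χ, tw_irr _ hχ, ε, ?_, fun k hk => ?_⟩
    · rcases hε with h1 | h1
      · exact Or.inl h1
      · exact Or.inr ⟨h1, fun h2 => hcase ⟨h1, h2⟩⟩
    · rw [tw_pow, hval k hk, hk]
      calc (c : ℂ) ^ j * (ε * ((c⁻¹ : ℂˣ) : ℂ) ^ j * ψ k)
          = (((c⁻¹ : ℂˣ) : ℂ) ^ j * (c : ℂ) ^ j) * (ε * ψ k) := by ring
        _ = ε * ψ k := by rw [hcc, one_mul]

theorem Setup.right {χ : G → ℂ} (hχ : IsIrr χ) {g : G} (hg : l g = c) (hχg : χ g ≠ 0) :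
    ∃ ψ : H → ℂ, IsIrr ψ ∧ Rel p l c H χ ψ := by
  have hp1 : ¬ p ∣ 1 := fun h => hp.out.one_lt.ne' (Nat.dvd_one.mp h)
  have h1 := s.norm_eq hχ hg hχg hp1
  rw [pow_one] at h1
  have h2 : ∃ ψ ∈ IC.Irr H, cs (lr l H) c (p * q) (rs H χ) ψ ≠ 0 := by
    by_contra hcon
    push Not at hcon
    have h3 : ∑ ψ ∈ IC.Irr H, ‖cs (lr l H) c (p * q) (rs H χ) ψ‖ ^ 2 = 0 := by
      apply Finset.sum_eq_zero
      intro ψ hψ
      rw [hcon ψ hψ]
      simp
    rw [h3] at h1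
    have := s.n_pos
    have h4 : (0 : ℝ) < ((p * q : ℕ) : ℝ) := by exact_mod_cast this
    exact h4.ne h1
  obtain ⟨ψ, hψ, hne⟩ := h2
  exact s.core_right hχ (mem_Irr.mp hψ) hne

/-- the induced function of the restriction to the coset -/
def indF (l : G →* ℂˣ) (c : ℂˣ) (H : Subgroup G) (ψ : H → ℂ) (g : G) : ℂ :=
  (Nat.card H : ℂ)⁻¹ * ∑ x : G, if h : x⁻¹ * g * x ∈ H ∧ l g = c then ψ ⟨x⁻¹ * g * x, h.1⟩ else 0

omit s in
lemma indF_cl (ψ : H → ℂ) : IsCl (indF l c H ψ) := by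
  intro g y
  unfold indF
  congr 1
  refine Fintype.sum_equiv (Equiv.mulLeft y⁻¹) _ _ fun x => ?_
  simp only [Equiv.coe_mulLeft]
  have e : (y⁻¹ * x)⁻¹ * g * (y⁻¹ * x) = x⁻¹ * (y * g * y⁻¹) * x := by group
  have e2 : l (y * g * y⁻¹) = l g := l_conj y g
  simp only [e, e2]

omit s in
lemma indF_val (hTI : TI l c H) {ψ : H → ℂ} (hψ : IsIrr ψ) (k : H) (hk : l k = c) :
    indF l c H ψ k = ψ k := by
  unfold indF
  have hH0 : (Nat.card H : ℂ) ≠ 0 := by exact_mod_cast Nat.card_pos.ne'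
  have h1 : ∀ x : G, (if h : x⁻¹ * (k : G) * x ∈ H ∧ l k = c then ψ ⟨x⁻¹ * k * x, h.1⟩ else 0) =
      if x ∈ H then ψ k else 0 := by
    intro x
    by_cases hx : x ∈ H
    · rw [if_pos hx]
      have h2 : x⁻¹ * (k : G) * x ∈ H := H.mul_mem (H.mul_mem (H.inv_mem hx) k.2) hx
      rw [dif_pos ⟨h2, hk⟩]
      have h3 := hψ.conj k (⟨x, hx⟩ : H)⁻¹
      rw [← h3]
      congr 1
      apply Subtype.ext
      simp
    · rw [if_neg hx, dif_neg]
      rintro ⟨h2, _⟩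
      exact hx (hTI.ti x k k.2 hk h2)
  rw [Finset.sum_congr rfl fun x _ => h1 x, ← Finset.sum_filter, Finset.sum_const, nsmul_eq_mul]
  have h5 : (Finset.univ.filter fun x : G => x ∈ H).card = Nat.card H := by
    rw [← Fintype.card_subtype, ← Nat.card_eq_fintype_card]
  rw [h5, inv_mul_cancel_left₀ hH0]

omit s in
lemma indF_ne {ψ : H → ℂ} {g : G} (h : indF l c H ψ g ≠ 0) : l g = c := by
  by_contra hg
  apply h
  unfold indF
  rw [Finset.sum_eq_zero, mul_zero]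
  intro x _
  rw [dif_neg]
  rintro ⟨_, h2⟩
  exact hg h2

theorem Setup.left {ψ : H → ℂ} (hψ : IsIrr ψ) {h : H} (hh : l h = c) (hψh : ψ h ≠ 0) :
    ∃ χ : G → ℂ, IsIrr χ ∧ Rel p l c H χ ψ := by
  by_contra hcon
  have h0 : ∀ χ : G → ℂ, IsIrr χ → cs (lr l H) c (p * q) (rs H χ) ψ = 0 := by
    intro χ hχ
    by_contra hne
    exact hcon (s.core_left hχ hψ hne)
  have hn0 : ((p * q : ℕ) : ℂ) ≠ 0 := by exact_mod_cast s.n_pos.ne'
  have hH0 : (Nat.card H : ℂ) ≠ 0 := by exact_mod_cast Nat.card_pos.ne'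
  have hG0 : (Nat.card G : ℂ) ≠ 0 := by exact_mod_cast Nat.card_pos.ne'
  set F := indF l c H ψ with hF
  have hFcl : IsCl F := indF_cl ψ
  have hB : ∀ χ ∈ IC.Irr G, IC.B F χ = 0 := by
    intro χ hχ
    rw [mem_Irr] at hχ
    unfold IC.B
    have h1 := s.hTI.sum (F := fun g => F g * χ g⁻¹) (fun g x => by
      have e : (x * g * x⁻¹)⁻¹ = x * g⁻¹ * x⁻¹ := by group
      rw [e, hFcl, hχ.conj])
    have h2 : ∑ g : G, F g * χ g⁻¹ = ∑ g : G, (if l g = c then F g * χ g⁻¹ else 0) := by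
      refine Finset.sum_congr rfl fun g _ => ?_
      split_ifs with hg
      · rfl
      · have : F g = 0 := by
          by_contra hne
          exact hg (indF_ne hne)
        rw [this, zero_mul]
    have h3 : (∑ k : H, if l k = c then F k * χ (k : G)⁻¹ else 0) = 0 := by
      have h4 := h0 χ hχ
      unfold cs at h4
      have h5 : (∑ g : H, if (lr l H) g = c then rs H χ g * ψ g⁻¹ else 0) = 0 := by
        rcases mul_eq_zero.mp h4 with h6 | h6
        · exact absurd h6 (mul_ne_zero hn0 (inv_ne_zero hH0))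
        · exact h6
      have h7 := congrArg (starRingEnd ℂ) h5
      rw [map_zero, map_sum] at h7
      refine Eq.trans (Finset.sum_congr rfl fun k _ => ?_) h7
      by_cases hk : l k = c
      · have hk' : (lr l H) k = c := hk
        rw [if_pos hk, if_pos hk', map_mul, hF, indF_val s.hTI hψ k hk, conj_char hχ, conj_char hψ,
          Complex.conj_conj, mul_comm]
      · have hk' : ¬ (lr l H) k = c := hk
        rw [if_neg hk, if_neg hk', map_zero]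
    rw [h2]
    rw [mul_eq_zero]
    right
    have h8 : (Nat.card H : ℂ) * ∑ g : G, (if l g = c then F g * χ g⁻¹ else 0) = 0 := by
      have h9 : (Nat.card G : ℂ) * (∑ k : H, if l k = c then F k * χ (k : G)⁻¹ else 0) = 0 := by
        rw [h3, mul_zero]
      rw [← h9]
      convert h1 using 4
    rcases mul_eq_zero.mp h8 with h9 | h9
    · exact absurd h9 hH0
    · exact h9
  have hF0 := IC.expand F hFcl
  have h10 : F h = 0 := by
    have h11 := congrFun hF0 h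
    rw [h11]
    simp only [Finset.sum_apply, Pi.smul_apply, smul_eq_mul]
    apply Finset.sum_eq_zero
    intro χ hχ
    rw [hB χ hχ, zero_mul]
  rw [hF, indF_val s.hTI hψ h hh] at h10
  exact hψh h10

lemma Setup.rel_ne {χ : G → ℂ} (hχ : IsIrr χ) {ψ : H → ℂ} (h : Rel p l c H χ ψ) {g : G}
    (hg : l g = c) (hχg : χ g ≠ 0) : ∃ k : H, l k = c ∧ χ k ≠ 0 ∧ ψ k ≠ 0 := by
  obtain ⟨a, ha⟩ := s.hTI.cover g hg
  obtain ⟨ε, _, hval⟩ := h
  have h1 : l (a⁻¹ * g * a) = c := by rw [l_conj', hg]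
  have h2 : χ (a⁻¹ * g * a) ≠ 0 := by
    have := hχ.conj g a⁻¹
    rw [inv_inv] at this
    rwa [this]
  refine ⟨⟨_, ha⟩, h1, h2, fun h3 => h2 ?_⟩
  have h4 := hval ⟨_, ha⟩ h1
  rw [h3, mul_zero] at h4
  exact h4

theorem Setup.right_unique {χ : G → ℂ} {ψ ψ' : H → ℂ} (hψ : IsIrr ψ)
    (hψ' : IsIrr ψ') (h : Rel p l c H χ ψ) (h' : Rel p l c H χ ψ') {k : H} (hk : l k = c)
    (hχk : ψ k ≠ 0) : ψ = ψ' := by
  obtain ⟨ε, hε, hval⟩ := h
  obtain ⟨ε', hε', hval'⟩ := h'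
  obtain ⟨r, hr⟩ := s.hq
  have hl := s.hl
  have hc := s.hc
  rw [hr] at hl hc
  refine uniq (l := lr l H) (k := r) (fun g => hl g) hc hψ hψ' (δ := ε' * ε) ?_ ?_ hk hχk
  · rcases hε with h1 | ⟨h1, h2⟩ <;> rcases hε' with h3 | ⟨h3, h4⟩ <;> rw [h1, h3] <;> simp [*]
  · intro g hg
    have h1 := hval g hg
    rw [hval' g hg] at h1
    have h2 : (ε' : ℂ) * ε' = 1 := by
      rcases hε' with h3 | ⟨h3, _⟩ <;> rw [h3] <;> norm_num
    calc ψ' g = (ε' * ε') * ψ' g := by rw [h2, one_mul]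
      _ = ε' * (ε' * ψ' g) := by ring
      _ = ε' * (ε * ψ g) := by rw [h1]
      _ = _ := by push_cast; ring

theorem Setup.left_unique {χ χ' : G → ℂ} {ψ : H → ℂ} (hχ : IsIrr χ)
    (hχ' : IsIrr χ') (h : Rel p l c H χ ψ) (h' : Rel p l c H χ' ψ) {g : G} (hg : l g = c)
    (hχg : χ g ≠ 0) : χ = χ' := by
  obtain ⟨ε, hε, hval⟩ := h
  obtain ⟨ε', hε', hval'⟩ := h'
  obtain ⟨r, hr⟩ := s.hq
  have hl := s.hl
  have hc := s.hc
  rw [hr] at hl hc
  refine uniq (l := l) (k := r) hl hc hχ hχ' (δ := ε' * ε) ?_ ?_ hg hχg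
  · rcases hε with h1 | ⟨h1, h2⟩ <;> rcases hε' with h3 | ⟨h3, h4⟩ <;> rw [h1, h3] <;> simp [*]
  · intro g hg
    obtain ⟨a, ha⟩ := s.hTI.cover g hg
    have h1 : l (a⁻¹ * g * a) = c := by rw [l_conj', hg]
    have h3 : χ (a⁻¹ * g * a) = χ g := by
      have := hχ.conj g a⁻¹
      rwa [inv_inv] at this
    have h4 : χ' (a⁻¹ * g * a) = χ' g := by
      have := hχ'.conj g a⁻¹
      rwa [inv_inv] at this
    have h5 := hval ⟨_, ha⟩ h1
    have h6 := hval' ⟨_, ha⟩ h1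
    simp only at h5 h6
    rw [h3] at h5
    rw [h4] at h6
    have h2 : (ε : ℂ) * ε = 1 := by
      rcases hε with h3 | ⟨h3, _⟩ <;> rw [h3] <;> norm_num
    rw [h5, h6]
    push_cast
    calc (ε' : ℂ) * ψ ⟨a⁻¹ * g * a, ha⟩ = ε' * ((ε * ε) * ψ ⟨a⁻¹ * g * a, ha⟩) := by
          rw [h2, one_mul]
      _ = _ := by ring

end

end Pool.Agent.Q21.CO
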