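import Pool.Agent.Q21.CO.Full

/-!
The group theoretic data.
-/

set_option linter.unusedSectionVars false

open scoped BigOperators Classical
open Pool.Agent.Helper884 Representation Pool.Agent.H254R3.IN Pool.Agent.Y62

noncomputable section

namespace Pool.Agent.Q21.CO

variable {G : Type} [Group G] [Fintype G]

/-- the group theoretic assumptions -/
structure Dat (p : ℕ) (N : Subgroup G) (y : G) (H : Subgroup G) (P : Sylow p G) : Prop where
  hN : N.Normal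
  hNt : N ≠ ⊤
  gen : N ⊔ Subgroup.zpowers y = ⊤
  hyP : y ∈ P
  hPH : (P : Subgroup G) ≤ H
  hC : ∀ x ∈ P, y⁻¹ * x ∈ N → Subgroup.centralizer ({x} : Set G) ≤ H

lemma conj_into {K : Type} [Group K] [Finite K] {p : ℕ} [hp : Fact p.Prime] (P : Sylow p K)
    {x : K} {b : ℕ} (hx : x ^ p ^ b = 1) : ∃ u : K, u⁻¹ * x * u ∈ (P : Subgroup K) := by
  have h1 : IsPGroup p (Subgroup.zpowers x) := by
    rintro ⟨z, hz⟩
    obtain ⟨i, rfl⟩ := Subgroup.mem_zpowers_iff.mp hz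
    refine ⟨b, Subtype.ext ?_⟩
    simp only [SubmonoidClass.coe_pow, Subgroup.coe_one]
    rw [← zpow_natCast, ← zpow_mul, mul_comm, zpow_mul, zpow_natCast, hx, one_zpow]
  obtain ⟨S, hS⟩ := h1.exists_le_sylow
  obtain ⟨u, hu⟩ := MulAction.exists_smul_eq K P S
  refine ⟨u, ?_⟩
  have h2 : x ∈ (S : Subgroup K) := hS (Subgroup.mem_zpowers x)
  rw [← hu, Sylow.coe_subgroup_smul] at h2
  have := (Subgroup.mem_pointwise_smul_iff_inv_smul_mem).mp h2
  rw [← map_inv, MulAut.smul_def, MulAut.conj_apply, inv_inv] at this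
  exact this

/-- the exponent giving the `p`-part -/
lemma exists_exp (G : Type) [Group G] [Fintype G] (p : ℕ) [hp : Fact p.Prime] :
    ∃ e b : ℕ, e ≡ 1 [MOD p ^ b] ∧ (∀ g : G, (g ^ e) ^ p ^ b = 1) ∧
      ∀ P : Sylow p G, Nat.card P = p ^ b := by
  set n := Nat.card G with hn
  have hn0 : n ≠ 0 := Nat.card_pos.ne'
  set b := n.factorization p with hb
  set m := n / p ^ b with hm
  have hmn : p ^ b * m = n := Nat.ordProj_mul_ordCompl_eq_self n p
  have hcop : Nat.Coprime (p ^ b) m := (Nat.coprime_ordCompl hp.out hn0).pow_left b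
  obtain ⟨e, he1, he2⟩ := Nat.chineseRemainder hcop 1 0
  refine ⟨e, b, he1, fun g => ?_, fun P => ?_⟩
  · rw [← pow_mul]
    have h1 : m ∣ e := (Nat.modEq_zero_iff_dvd).mp he2
    have h2 : Nat.card G ∣ e * p ^ b := by
      rw [← hn, ← hmn, mul_comm]
      exact Nat.mul_dvd_mul h1 dvd_rfl
    exact orderOf_dvd_iff_pow_eq_one.mp ((orderOf_dvd_natCard g).trans h2)
  · exact P.card_eq_multiplicity

namespace Dat

variable {p : ℕ} [hp : Fact p.Prime] {N H : Subgroup G} {y : G} {P : Sylow p G}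
  (d : Dat p N y H P)

include d

lemma gen' (g : G) : ∃ n ∈ N, ∃ i : ℤ, n * y ^ i = g := by
  have := d.hN
  have h1 : g ∈ N ⊔ Subgroup.zpowers y := by
    rw [d.gen]
    exact Subgroup.mem_top _
  obtain ⟨n, hn, z, hz, h⟩ := Subgroup.mem_sup_of_normal_left.mp h1
  obtain ⟨i, rfl⟩ := Subgroup.mem_zpowers_iff.mp hz
  exact ⟨n, hn, i, h⟩

lemma ord_y : ∃ k, orderOf y = p ^ k := by
  obtain ⟨k, hk⟩ := IsPGroup.iff_card.mp P.isPGroup'
  have h2 : orderOf y ∣ Nat.card P := by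
    have h3 := orderOf_dvd_natCard (⟨y, d.hyP⟩ : (P : Subgroup G))
    rwa [Subgroup.orderOf_mk] at h3
  rw [hk] at h2
  obtain ⟨r, _, hr⟩ := (Nat.dvd_prime_pow hp.out).mp h2
  exact ⟨r, hr⟩

/-- the linear character with kernel `N` -/
lemma exists_lin : ∃ l : G →* ℂˣ, ∀ g, l g = 1 ↔ g ∈ N := by
  have := d.hN
  have hcyc : IsCyclic (G ⧸ N) := by
    refine ⟨QuotientGroup.mk y, fun x => ?_⟩
    obtain ⟨g, rfl⟩ := QuotientGroup.mk_surjective x
    obtain ⟨n, hn, i, rfl⟩ := d.gen' g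
    refine ⟨i, ?_⟩
    change (QuotientGroup.mk y : G ⧸ N) ^ i = _
    rw [QuotientGroup.mk_mul, (QuotientGroup.eq_one_iff n).mpr hn, one_mul]
    rfl
  obtain ⟨l, hl⟩ := IC.exists_faithful hcyc
  refine ⟨l.comp (QuotientGroup.mk' N), fun g => ?_⟩
  rw [MonoidHom.comp_apply]
  constructor
  · intro h
    have h1 : (QuotientGroup.mk' N) g = 1 := hl (by rw [h, map_one])
    exact (QuotientGroup.eq_one_iff g).mp h1
  · intro h
    have h1 : (QuotientGroup.mk' N) g = 1 := (QuotientGroup.eq_one_iff g).mpr h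
    rw [h1, map_one]

omit [Fintype G] d hp in
lemma l_iff {l : G →* ℂˣ} (hl : ∀ g, l g = 1 ↔ g ∈ N) (g : G) : l g = l y ↔ y⁻¹ * g ∈ N := by
  rw [← hl, map_mul, map_inv, inv_mul_eq_one, eq_comm]

theorem setup {l : G →* ℂˣ} (hl : ∀ g, l g = 1 ↔ g ∈ N) : ∃ q, Setup p q l (l y) H := by
  obtain ⟨k, hk⟩ := d.ord_y
  have h1 : orderOf (l y) ∣ p ^ k := by
    rw [← hk]
    exact orderOf_map_dvd l y
  obtain ⟨r, _, hr⟩ := (Nat.dvd_prime_pow hp.out).mp h1
  have hr0 : r ≠ 0 := by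
    rintro rfl
    rw [pow_zero, orderOf_eq_one_iff, hl] at hr
    apply d.hNt
    have h2 := d.gen
    rwa [sup_eq_left.mpr ((Subgroup.zpowers_le).mpr hr)] at h2
  obtain ⟨r, rfl⟩ := Nat.exists_eq_succ_of_ne_zero hr0
  have hlp : ∀ g, l g ^ (p * p ^ r) = 1 := by
    intro g
    obtain ⟨n, hn, i, rfl⟩ := d.gen' g
    rw [map_mul, (hl n).mpr hn, one_mul, map_zpow, ← zpow_natCast, ← zpow_mul, mul_comm, zpow_mul,
      zpow_natCast, ← pow_succ', ← hr, pow_orderOf_eq_one, one_zpow]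
  have hcard : orderOf (l y) = p * p ^ r := by rw [hr, pow_succ']
  obtain ⟨e, b, he1, he2, hPb⟩ := exists_exp G p
  have hcb : orderOf (l y) ∣ p ^ b := by
    refine (orderOf_map_dvd l y).trans ?_
    rw [← hPb P]
    have h3 := orderOf_dvd_natCard (⟨y, d.hyP⟩ : (P : Subgroup G))
    rwa [Subgroup.orderOf_mk] at h3
  have hce : l y ^ e = l y := by
    conv_rhs => rw [← pow_one (l y)]
    rw [pow_eq_pow_iff_modEq]
    exact he1.of_dvd hcb
  refine ⟨p ^ r, ⟨r, rfl⟩, hlp, hcard, ?_, ?_⟩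
  · intro g h hh hlh hgh
    obtain ⟨u, hu⟩ := conj_into (P.subtype d.hPH) (x := (⟨h ^ e, H.pow_mem hh e⟩ : H)) (b := b)
      (Subtype.ext (he2 h))
    have hgh' : g⁻¹ * h ^ e * g ∈ H := by
      have e1 : g⁻¹ * h ^ e * g = (g⁻¹ * h * g) ^ e := by
        have := conj_pow (i := e) (a := g⁻¹) (b := h)
        rw [inv_inv] at this
        exact this.symm
      rw [e1]
      exact H.pow_mem hgh _
    obtain ⟨v, hv⟩ := conj_into (P.subtype d.hPH) (x := (⟨g⁻¹ * h ^ e * g, hgh'⟩ : H)) (b := b) (by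
      apply Subtype.ext
      change (g⁻¹ * h ^ e * g) ^ p ^ b = 1
      have e1 : (g⁻¹ * h ^ e * g) ^ p ^ b = g⁻¹ * (h ^ e) ^ p ^ b * g := by
        have := conj_pow (i := p ^ b) (a := g⁻¹) (b := h ^ e)
        rw [inv_inv] at this
        exact this
      rw [e1, he2]
      group)
    rw [Sylow.coe_subtype, Subgroup.mem_subgroupOf] at hu hv
    have hu' : (u : G)⁻¹ * h ^ e * u ∈ (P : Subgroup G) := hu
    have hv' : (v : G)⁻¹ * (g⁻¹ * h ^ e * g) * v ∈ (P : Subgroup G) := hv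
    have h4 : (u : G)⁻¹ * g * v ∈ H := by
      refine ti_sylow (l := l) (c := l y) P d.hPH (fun x hx hlx => d.hC x hx ((l_iff hl x).mp hlx)) _
        ((u : G)⁻¹ * g * v) rfl ⟨(u : G)⁻¹ * h ^ e * u, ⟨hu', ?_⟩, ?_⟩
      · change _ ∈ cj ((u : G)⁻¹ * g * v) (P : Subgroup G)
        rw [mem_cj]
        have e1 : ((u : G)⁻¹ * g * v)⁻¹ * ((u : G)⁻¹ * h ^ e * u) * ((u : G)⁻¹ * g * v) =
          (v : G)⁻¹ * (g⁻¹ * h ^ e * g) * v := by group
        rw [e1]
        exact hv'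
      · rw [l_conj', map_pow, hlh, hce]
    have h5 := H.mul_mem (H.mul_mem u.2 h4) (H.inv_mem v.2)
    have h6 : (u : G) * ((u : G)⁻¹ * g * v) * (v : G)⁻¹ = g := by group
    rwa [h6] at h5
  · intro g hg
    obtain ⟨a, ha⟩ := conj_into P (x := g ^ e) (b := b) (he2 g)
    refine ⟨a, ?_⟩
    apply d.hC _ ha ((l_iff hl _).mp (by rw [l_conj', map_pow, hg, hce]))
    rw [Subgroup.mem_centralizer_singleton_iff]
    have e1 : a⁻¹ * g ^ e * a = (a⁻¹ * g * a) ^ e := by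
      have := conj_pow (i := e) (a := a⁻¹) (b := g)
      rw [inv_inv] at this
      exact this.symm
    rw [e1, ← pow_succ, ← pow_succ']

end Dat

end Pool.Agent.Q21.CO
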