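import Pool.Agent.Y62.Avg

/-!
Averages of `|x|²` over the Galois conjugates of an integral combination of `p^k`-th roots of unity.
-/

open scoped BigOperators
open Finset

noncomputable section

namespace Pool.Agent.Q21.CO

open Pool.Agent.Y62 (parseval conj_pow_root)

lemma sum_range_mul {A : Type*} [AddCommMonoid A] (p q : ℕ) (f : ℕ → A) :
    ∑ j ∈ range (p * q), f j = ∑ c ∈ range q, ∑ i ∈ range p, f (c + q * i) := by
  induction p with
  | zero => simp
  | succ p ih =>
    have e : (p + 1) * q = p * q + q := by ring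
    rw [e, Finset.sum_range_add, ih]
    simp only [Finset.sum_range_succ]
    rw [Finset.sum_add_distrib]
    congr 1
    refine Finset.sum_congr rfl fun c _ => ?_
    congr 1
    ring

lemma sum_range_mul' {A : Type*} [AddCommMonoid A] {p : ℕ} (hp : 0 < p) (q : ℕ) (f : ℕ → A) :
    ∑ j ∈ range (p * q), f j = ∑ j ∈ (range (p * q)).filter (fun t => ¬ p ∣ t), f j +
      ∑ c ∈ range q, f (p * c) := by
  rw [← Finset.sum_filter_add_sum_filter_not (range (p * q)) (fun t => ¬ p ∣ t) f]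
  congr 1
  symm
  apply Finset.sum_bij (fun c _ => p * c)
  · intro c hc
    rw [mem_range] at hc
    simp only [mem_filter, mem_range]
    exact ⟨Nat.mul_lt_mul_of_pos_left hc hp, fun h => h ⟨c, rfl⟩⟩
  · intro a _ b _ h
    exact Nat.eq_of_mul_eq_mul_left hp h
  · intro b hb
    simp only [mem_filter, mem_range, not_not] at hb
    obtain ⟨c, rfl⟩ := hb.2
    exact ⟨c, mem_range.mpr (Nat.lt_of_mul_lt_mul_left hb.1), rfl⟩
  · intro c _
    rfl

/-- the energy of a class -/
def EE (p : ℕ) (u : ℕ → ℤ) : ℤ := p * ∑ i ∈ range p, u i ^ 2 - (∑ i ∈ range p, u i) ^ 2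

lemma EE_shift (p : ℕ) (u : ℕ → ℤ) (s : ℤ) : EE p (fun i => u i - s) = EE p u := by
  unfold EE
  have h1 : ∑ i ∈ range p, (u i - s) ^ 2 =
      ∑ i ∈ range p, u i ^ 2 - 2 * s * ∑ i ∈ range p, u i + p * s ^ 2 := by
    have : ∀ i ∈ range p, (u i - s) ^ 2 = u i ^ 2 - 2 * s * u i + s ^ 2 := fun i _ => by ring
    rw [Finset.sum_congr rfl this, Finset.sum_add_distrib, Finset.sum_sub_distrib,
      ← Finset.mul_sum, Finset.sum_const, card_range, nsmul_eq_mul]
  rw [h1, Finset.sum_sub_distrib, Finset.sum_const, card_range, nsmul_eq_mul]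
  ring

lemma comb {p : ℕ} (hp : 2 ≤ p) (u : ℕ → ℤ) :
    0 ≤ EE p u ∧ (EE p u = 0 → ∃ w, ∀ i < p, u i = w) ∧ (EE p u ≠ 0 → (p : ℤ) - 1 ≤ EE p u) ∧
    (EE p u ≠ 0 → EE p u ≤ (p : ℤ) - 1 → ∃ i₁ < p, ∃ w ε : ℤ, (ε = 1 ∨ ε = -1) ∧
      ∀ i < p, u i = w + if i = i₁ then ε else 0) := by
  set T := ∑ i ∈ range p, u i with hT
  set s := T / p with hs
  set v : ℕ → ℤ := fun i => u i - s with hv
  have hE : EE p v = EE p u := EE_shift p u s
  set S := ∑ i ∈ range p, v i with hS
  have hS' : S = T % p := by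
    rw [hS, hv]
    simp only
    rw [Finset.sum_sub_distrib, Finset.sum_const, card_range, nsmul_eq_mul, ← hT, hs]
    have := Int.emod_add_mul_ediv T p
    linarith
  have hp' : (0 : ℤ) < p := by exact_mod_cast (by omega : 0 < p)
  have h0 : 0 ≤ S := by rw [hS']; exact Int.emod_nonneg _ hp'.ne'
  have h1 : S < p := by rw [hS']; exact Int.emod_lt_of_pos _ hp'
  set Q := ∑ i ∈ range p, v i ^ 2 with hQ
  have hEE : EE p u = p * Q - S ^ 2 := hE.symm
  have hQS : S ≤ Q := by
    rw [hS, hQ]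
    refine Finset.sum_le_sum fun i _ => ?_
    rcases le_or_gt (v i) 0 with h | h
    · exact h.trans (sq_nonneg _)
    · nlinarith
  have hQ0 : 0 ≤ Q := Finset.sum_nonneg fun i _ => sq_nonneg _
  have hp2 : (2 : ℤ) ≤ p := by exact_mod_cast hp
  have hcase : S = 0 ∨ 1 ≤ S := by omega
  -- zero energy
  have hzero : EE p u = 0 → Q = 0 := by
    intro h
    rcases hcase with h2 | h2
    · rw [hEE, h2] at h
      have : (p : ℤ) * Q = 0 := by linarith
      exact (mul_eq_zero.mp this).resolve_left hp'.ne'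
    · exfalso
      rw [hEE] at h
      nlinarith
  have hlow : EE p u ≠ 0 → (p : ℤ) - 1 ≤ EE p u := by
    intro h
    rcases hcase with h2 | h2
    · rw [hEE, h2] at h ⊢
      have h3 : Q ≠ 0 := fun h3 => h (by rw [h3]; ring)
      have h4 : 1 ≤ Q := by omega
      nlinarith
    · rw [hEE]
      nlinarith
  refine ⟨?_, ?_, hlow, ?_⟩
  · by_cases h : EE p u = 0
    · exact h.ge
    · have := hlow h
      linarith
  · intro h
    have h2 := hzero h
    rw [hQ, Finset.sum_eq_zero_iff_of_nonneg fun i _ => sq_nonneg _] at h2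
    refine ⟨s, fun i hi => ?_⟩
    have h3 := h2 i (mem_range.mpr hi)
    have h4 : v i = 0 := pow_eq_zero_iff (two_ne_zero) |>.mp h3
    rw [hv] at h4
    simp only at h4
    linarith
  · intro hne hle
    have hS1 : 1 ≤ S := by
      rcases hcase with h2 | h2
      · exfalso
        rw [hEE, h2] at hne hle
        have h3 : Q ≠ 0 := fun h3 => hne (by rw [h3]; ring)
        have h4 : 1 ≤ Q := by omega
        nlinarith
      · exact h2
    rw [hEE] at hle
    have hSc : S = 1 ∨ S = p - 1 := by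
      by_contra hcon
      push Not at hcon
      have h3 : 2 ≤ S := by omega
      have h4 : S ≤ p - 2 := by omega
      nlinarith
    rcases hSc with h2 | h2
    · -- exactly one entry is `1`
      have hQ1 : Q ≤ 1 := by
        rw [h2] at hle
        nlinarith
      obtain ⟨i₁, hi₁, hv1⟩ : ∃ i ∈ range p, v i ≠ 0 := by
        by_contra hcon
        push Not at hcon
        rw [hS, Finset.sum_eq_zero hcon] at h2
        omega
      have h5 : v i₁ ^ 2 + ∑ i ∈ (range p).erase i₁, v i ^ 2 = Q :=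
        Finset.add_sum_erase (range p) (fun i => v i ^ 2) hi₁
      have h6 : 0 ≤ ∑ i ∈ (range p).erase i₁, v i ^ 2 := Finset.sum_nonneg fun i _ => sq_nonneg _
      have h7 : 1 ≤ v i₁ ^ 2 := by
        have : 0 < v i₁ ^ 2 := by positivity
        omega
      have h8 : ∑ i ∈ (range p).erase i₁, v i ^ 2 = 0 := by omega
      have h9 : v i₁ ^ 2 = 1 := by omega
      rw [Finset.sum_eq_zero_iff_of_nonneg fun i _ => sq_nonneg _] at h8
      have h10 : v i₁ = 1 ∨ v i₁ = -1 := by
        have : (v i₁ - 1) * (v i₁ + 1) = 0 := by linear_combination h9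
        rcases mul_eq_zero.mp this with h | h
        · left; linarith
        · right; linarith
      refine ⟨i₁, mem_range.mp hi₁, s, v i₁, h10, ?_⟩
      intro i hi
      split_ifs with h10
      · rw [h10, hv]; ring
      · have h11 := h8 i (mem_erase.mpr ⟨h10, mem_range.mpr hi⟩)
        have h12 : v i = 0 := pow_eq_zero_iff (two_ne_zero) |>.mp h11
        rw [hv] at h12
        simp only at h12
        linarith
    · -- exactly one entry is `0`
      have hQ1 : Q ≤ S := by
        rw [h2] at hle ⊢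
        nlinarith
      have hQ2 : ∑ i ∈ range p, (v i ^ 2 - v i) = 0 := by
        rw [Finset.sum_sub_distrib, ← hQ, ← hS]
        omega
      have hnn : ∀ i ∈ range p, 0 ≤ v i ^ 2 - v i := by
        intro i _
        rcases le_or_gt (v i) 0 with h | h
        · nlinarith
        · nlinarith
      rw [Finset.sum_eq_zero_iff_of_nonneg hnn] at hQ2
      have h01 : ∀ i ∈ range p, v i = 0 ∨ v i = 1 := by
        intro i hi
        have h3 := hQ2 i hi
        have h4 : v i * (v i - 1) = 0 := by linarith [h3, sq (v i)]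
        rcases mul_eq_zero.mp h4 with h5 | h5
        · exact Or.inl h5
        · exact Or.inr (by linarith)
      have hsum : ∑ i ∈ range p, (1 - v i) = 1 := by
        rw [Finset.sum_sub_distrib, Finset.sum_const, card_range, ← hS, h2]
        simp
      obtain ⟨i₁, hi₁, hv1⟩ : ∃ i ∈ range p, 1 - v i ≠ 0 := by
        by_contra hcon
        push Not at hcon
        rw [Finset.sum_eq_zero hcon] at hsum
        omega
      have hv0 : v i₁ = 0 := (h01 i₁ hi₁).resolve_right (fun h => hv1 (by rw [h]; ring))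
      have h5 : (1 - v i₁) + ∑ i ∈ (range p).erase i₁, (1 - v i) = 1 := by
        exact (Finset.add_sum_erase (range p) (fun i => 1 - v i) hi₁).trans hsum
      have h6 : ∑ i ∈ (range p).erase i₁, (1 - v i) = 0 := by rw [hv0] at h5; linarith
      rw [Finset.sum_eq_zero_iff_of_nonneg (by
        intro i hi
        rcases h01 i (mem_of_mem_erase hi) with h | h <;> rw [h] <;> norm_num)] at h6
      refine ⟨i₁, mem_range.mp hi₁, s + 1, -1, Or.inr rfl, ?_⟩
      intro i hi
      split_ifs with h10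
      · rw [h10]
        rw [hv] at hv0
        simp only at hv0
        linarith
      · have h11 := h6 i (mem_erase.mpr ⟨h10, mem_range.mpr hi⟩)
        rw [hv] at h11
        simp only at h11
        linarith

section

variable {p : ℕ} [hp : Fact p.Prime] {q : ℕ} (hq : q ≠ 0) {ζ : ℂ} (hζ : IsPrimitiveRoot ζ (p * q))
  (n : ℕ → ℤ)

include hq hζ

/-- exact value of the sum over the conjugates -/
lemma avg_eq :
    ∑ t ∈ (range (p * q)).filter (fun t => ¬ p ∣ t),
      (‖∑ j ∈ range (p * q), (n j : ℂ) * ζ ^ (t * j)‖ : ℝ) ^ 2 =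
    q * ∑ c ∈ range q, ((EE p (fun i => n (c + q * i)) : ℤ) : ℝ) := by
  have hp0 := hp.out.pos
  have h1 := parseval (Nat.mul_ne_zero hp0.ne' hq) hζ (fun j => (n j : ℂ))
  rw [sum_range_mul' hp0] at h1
  have hζ3 : IsPrimitiveRoot (ζ ^ p) q := hζ.pow (by positivity) rfl
  have h2 : ∀ c, ∑ j ∈ range (p * q), (n j : ℂ) * ζ ^ (p * c * j) =
      ∑ j ∈ range q, ((∑ i ∈ range p, n (j + q * i) : ℤ) : ℂ) * (ζ ^ p) ^ (c * j) := by
    intro c
    rw [sum_range_mul]
    refine Finset.sum_congr rfl fun j _ => ?_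
    push_cast
    rw [Finset.sum_mul]
    refine Finset.sum_congr rfl fun i _ => ?_
    congr 1
    rw [← pow_mul]
    have : p * c * (j + q * i) = p * (c * j) + (p * q) * (c * i) := by ring
    rw [this, pow_add, pow_mul ζ (p * q), hζ.pow_eq_one, one_pow, mul_one]
  have h3 := parseval hq hζ3 (fun j => ((∑ i ∈ range p, n (j + q * i) : ℤ) : ℂ))
  simp only [h2] at h1
  rw [h3] at h1
  have h4 : ∀ z : ℤ, ‖(z : ℂ)‖ ^ 2 = (z : ℝ) ^ 2 := by
    intro z
    rw [Complex.norm_intCast, sq_abs]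
  simp only [h4] at h1
  rw [sum_range_mul p q (fun j => (n j : ℝ) ^ 2)] at h1
  unfold EE
  push_cast at h1 ⊢
  rw [Finset.sum_sub_distrib, ← Finset.mul_sum]
  linear_combination h1

lemma inner_const (w : ℤ) {t : ℕ} (ht : ¬ p ∣ t) (c : ℕ) :
    ∑ i ∈ range p, (w : ℂ) * ζ ^ (t * (c + q * i)) = 0 := by
  have hp0 := hp.out.pos
  have e : ∀ i ∈ range p, (w : ℂ) * ζ ^ (t * (c + q * i)) =
      (w : ℂ) * ζ ^ (t * c) * (ζ ^ (t * q)) ^ i := by
    intro i _
    rw [← pow_mul, mul_assoc, ← pow_add]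
    congr 2
    ring
  rw [Finset.sum_congr rfl e, ← Finset.mul_sum]
  have h1 : ζ ^ (t * q) ≠ 1 := by
    intro h
    rw [hζ.pow_eq_one_iff_dvd, Nat.mul_dvd_mul_iff_right (Nat.pos_of_ne_zero hq)] at h
    exact ht h
  have h2 : (ζ ^ (t * q)) ^ p = 1 := by
    rw [← pow_mul]
    have : t * q * p = (p * q) * t := by ring
    rw [this, pow_mul, hζ.pow_eq_one, one_pow]
  have h3 := geom_sum_mul (ζ ^ (t * q)) p
  rw [h2, sub_self] at h3
  rcases mul_eq_zero.mp h3 with h4 | h4
  · rw [h4, mul_zero]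
  · exact absurd (sub_eq_zero.mp h4) h1

omit hp hq hζ in
lemma sum_eq_inner (t : ℕ) : ∑ j ∈ range (p * q), (n j : ℂ) * ζ ^ (t * j) =
    ∑ c ∈ range q, ∑ i ∈ range p, (n (c + q * i) : ℂ) * ζ ^ (t * (c + q * i)) :=
  sum_range_mul p q _

/-- the average over the conjugates is at least one, and the case of equality -/
theorem avg_main (hx : ∑ j ∈ range (p * q), (n j : ℂ) * ζ ^ j ≠ 0) :
    ((p - 1 : ℕ) : ℝ) * q ≤ ∑ t ∈ (range (p * q)).filter (fun t => ¬ p ∣ t),
      (‖∑ j ∈ range (p * q), (n j : ℂ) * ζ ^ (t * j)‖ : ℝ) ^ 2 ∧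
    (∑ t ∈ (range (p * q)).filter (fun t => ¬ p ∣ t),
      (‖∑ j ∈ range (p * q), (n j : ℂ) * ζ ^ (t * j)‖ : ℝ) ^ 2 ≤ ((p - 1 : ℕ) : ℝ) * q →
      ∃ j₀ : ℕ, ∃ ε : ℤ, (ε = 1 ∨ ε = -1) ∧ ∀ t, ¬ p ∣ t →
        ∑ j ∈ range (p * q), (n j : ℂ) * ζ ^ (t * j) = ε * ζ ^ (t * j₀)) := by
  have hp2 := hp.out.two_le
  rw [avg_eq hq hζ]
  obtain ⟨c, hc, hne⟩ : ∃ c ∈ range q, EE p (fun i => n (c + q * i)) ≠ 0 := by
    by_contra hcon
    push Not at hcon
    apply hx
    have h1 := sum_eq_inner (p := p) (q := q) (ζ := ζ) n 1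
    simp only [one_mul] at h1
    rw [h1]
    refine Finset.sum_eq_zero fun c hc => ?_
    obtain ⟨w, hw⟩ := (comb hp2 (fun i => n (c + q * i))).2.1 (hcon c hc)
    have h2 := inner_const hq hζ w (t := 1) (fun h => by
      have := Nat.le_of_dvd one_pos h
      omega) c
    simp only [one_mul] at h2
    rw [← h2]
    refine Finset.sum_congr rfl fun i hi => ?_
    rw [hw i (mem_range.mp hi)]
  have hnn : ∀ c ∈ range q, 0 ≤ EE p (fun i => n (c + q * i)) := fun c _ =>
    (comb hp2 (fun i => n (c + q * i))).1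
  have hlow := (comb hp2 (fun i => n (c + q * i))).2.2.1 hne
  have hsum : ∑ c ∈ range q, ((EE p (fun i => n (c + q * i)) : ℤ) : ℝ) =
      ((∑ c ∈ range q, EE p (fun i => n (c + q * i)) : ℤ) : ℝ) := by push_cast; rfl
  rw [hsum]
  have hq' : (0 : ℝ) < q := by exact_mod_cast Nat.pos_of_ne_zero hq
  have hcast : ((p - 1 : ℕ) : ℝ) = (((p : ℤ) - 1 : ℤ) : ℝ) := by
    rw [Nat.cast_sub (by omega)]
    push_cast
    ring
  rw [hcast]
  constructor
  · rw [mul_comm]
    apply mul_le_mul_of_nonneg_left _ hq'.le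
    exact_mod_cast hlow.trans (Finset.single_le_sum hnn hc)
  · intro hle
    rw [mul_comm] at hle
    have hle' : ∑ c ∈ range q, EE p (fun i => n (c + q * i)) ≤ (p : ℤ) - 1 := by
      exact_mod_cast le_of_mul_le_mul_right hle hq'
    have h5 := Finset.add_sum_erase (range q) (fun c => EE p (fun i => n (c + q * i))) hc
    have h6 : 0 ≤ ∑ c ∈ (range q).erase c, EE p (fun i => n (c + q * i)) :=
      Finset.sum_nonneg fun i hi => hnn i (mem_of_mem_erase hi)
    have h7 : EE p (fun i => n (c + q * i)) ≤ (p : ℤ) - 1 := by linarith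
    have h8 : ∑ c ∈ (range q).erase c, EE p (fun i => n (c + q * i)) = 0 := by linarith
    rw [Finset.sum_eq_zero_iff_of_nonneg fun i hi => hnn i (mem_of_mem_erase hi)] at h8
    obtain ⟨i₁, hi₁, w, ε, hε, hu⟩ := (comb hp2 (fun i => n (c + q * i))).2.2.2 hne h7
    refine ⟨c + q * i₁, ε, hε, fun t ht => ?_⟩
    rw [sum_eq_inner n t, ← Finset.add_sum_erase (range q) _ hc]
    have h9 : ∑ c' ∈ (range q).erase c, ∑ i ∈ range p,
        (n (c' + q * i) : ℂ) * ζ ^ (t * (c' + q * i)) = 0 := by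
      refine Finset.sum_eq_zero fun c' hc' => ?_
      obtain ⟨w', hw'⟩ := (comb hp2 (fun i => n (c' + q * i))).2.1 (h8 c' hc')
      rw [← inner_const hq hζ w' ht c']
      refine Finset.sum_congr rfl fun i hi => ?_
      rw [hw' i (mem_range.mp hi)]
    rw [h9, add_zero]
    have h10 : ∀ i ∈ range p, (n (c + q * i) : ℂ) * ζ ^ (t * (c + q * i)) =
        (w : ℂ) * ζ ^ (t * (c + q * i)) + if i = i₁ then (ε : ℂ) * ζ ^ (t * (c + q * i)) else 0 := by
      intro i hi
      rw [hu i (mem_range.mp hi)]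
      split_ifs with h
      · push_cast
        ring
      · push_cast
        ring
    rw [Finset.sum_congr rfl h10, Finset.sum_add_distrib, inner_const hq hζ w ht c, zero_add,
      Finset.sum_ite_eq' (range p) i₁, if_pos (mem_range.mpr hi₁)]

end

end Pool.Agent.Q21.CO
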