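import Pool.Agent.Q21.CO.Sum
import Pool.Agent.Q21.CO.Avg

/-!
The isometry between the characters of `G` and `H` on a coset.
-/

set_option linter.unusedSectionVars false

open scoped BigOperators Classical
open Pool.Agent.Helper884 Representation Pool.Agent.H254R3.IN Pool.Agent.Y62

noncomputable section

namespace Pool.Agent.Q21.CO

variable {G : Type} [Group G] [Fintype G]

/-- restriction to `H` -/
abbrev rs (H : Subgroup G) (χ : G → ℂ) : H → ℂ := fun h => χ h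

/-- restriction of `l` to `H` -/
abbrev lr (l : G →* ℂˣ) (H : Subgroup G) : H →* ℂˣ := l.comp H.subtype

lemma mult_nat (H : Subgroup G) {χ : G → ℂ} (hχ : IsIrr χ) {ψ : H → ℂ} (hψ : IsIrr ψ) :
    ∃ n : ℕ, IC.B (rs H χ) ψ = n := by
  obtain ⟨l, hl⟩ := exists_l (1 : G)
  obtain ⟨n, hn⟩ := ips_fourier hχ (y := 1) (fun h _ => Commute.one_left h) hψ l hl
  refine ⟨n 0, ?_⟩
  have h1 := hn 0
  rw [pow_zero, orderOf_one, Finset.sum_range_one, zero_mul, pow_zero, mul_one] at h1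
  rw [← h1]
  unfold ips IC.B
  simp

lemma rs_tw (l : G →* ℂˣ) (H : Subgroup G) (j : ℕ) (χ : G → ℂ) :
    tw ((lr l H) ^ j) (rs H χ) = rs H (tw (l ^ j) χ) := by
  funext h
  rw [tw_pow]
  change _ = tw (l ^ j) χ h
  rw [tw_pow]
  rfl

lemma conj_inv {K : Type} [Group K] [Fintype K] {χ : K → ℂ} (hχ : IsIrr χ) (g : K) :
    χ g * χ g⁻¹ = ((‖χ g‖ ^ 2 : ℝ) : ℂ) := by
  rw [conj_char hχ, Complex.mul_conj']
  push_cast
  rfl

variable {p q : ℕ} [hp : Fact p.Prime] {l : G →* ℂˣ} {c : ℂˣ} {H : Subgroup G}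

/-- assumptions of this file -/
structure Setup (p q : ℕ) (l : G →* ℂˣ) (c : ℂˣ) (H : Subgroup G) : Prop where
  hq : ∃ k, q = p ^ k
  hl : ∀ g, l g ^ (p * q) = 1
  hc : orderOf c = p * q
  hTI : TI l c H

namespace Setup

variable (s : Setup p q l c H)

include s

lemma q_ne : q ≠ 0 := by
  obtain ⟨k, rfl⟩ := s.hq
  exact pow_ne_zero _ hp.out.ne_zero

lemma n_pos : 0 < p * q := Nat.mul_pos hp.out.pos (Nat.pos_of_ne_zero s.q_ne)

lemma c_pow : c ^ (p * q) = 1 := by rw [← s.hc, pow_orderOf_eq_one]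

lemma prim : IsPrimitiveRoot ((c⁻¹ : ℂˣ) : ℂ) (p * q) := by
  rw [IsPrimitiveRoot.coe_units_iff]
  have h := IsPrimitiveRoot.orderOf (c⁻¹)
  rwa [orderOf_inv, s.hc] at h

lemma inv_exp {t : ℕ} (ht : ¬ p ∣ t) : ∃ t', (c ^ t) ^ t' = c := by
  obtain ⟨k, hk⟩ := s.hq
  have hcop : Nat.Coprime t (orderOf c) := by
    rw [s.hc, hk, ← pow_succ']
    exact Nat.Coprime.pow_right _ ((Nat.Prime.coprime_iff_not_dvd hp.out).mpr ht).symm
  obtain ⟨m, hm⟩ := exists_pow_eq_self_of_coprime hcop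
  exact ⟨m, hm⟩

lemma ti_pow {t : ℕ} (ht : ¬ p ∣ t) : TI l (c ^ t) H := by
  obtain ⟨t', ht'⟩ := s.inv_exp ht
  exact s.hTI.pow ht'

lemma mult {χ : G → ℂ} (hχ : IsIrr χ) {ψ : H → ℂ} (hψ : IsIrr ψ) :
    ∃ m : ℕ → ℤ, ∀ t, cs (lr l H) (c ^ t) (p * q) (rs H χ) ψ =
      ∑ j ∈ Finset.range (p * q), (m j : ℂ) * ((c⁻¹ : ℂˣ) : ℂ) ^ (t * j) := by
  have h1 : ∀ j, ∃ n : ℕ, IC.B (tw ((lr l H) ^ j) (rs H χ)) ψ = n := by
    intro j
    rw [rs_tw]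
    exact mult_nat H (tw_irr _ hχ) hψ
  choose m hm using h1
  refine ⟨fun j => m j, fun t => ?_⟩
  have h2 : ∀ h : H, lr l H h ^ (p * q) = 1 := fun h => s.hl h
  have h3 : (c ^ t) ^ (p * q) = 1 := by rw [← pow_mul, mul_comm, pow_mul, s.c_pow, one_pow]
  rw [cs_eq h2 h3]
  refine Finset.sum_congr rfl fun j _ => ?_
  rw [hm j, ← inv_pow, Units.val_pow_eq_pow_val, ← pow_mul]
  push_cast
  ring

/-- the norm of the restriction to the coset -/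
lemma norm_eq {χ : G → ℂ} (hχ : IsIrr χ) {g : G} (hg : l g = c) (hχg : χ g ≠ 0) {t : ℕ}
    (ht : ¬ p ∣ t) :
    ∑ ψ ∈ IC.Irr H, ‖cs (lr l H) (c ^ t) (p * q) (rs H χ) ψ‖ ^ 2 = ((p * q : ℕ) : ℝ) := by
  set n := p * q with hn
  have hn0 : (n : ℂ) ≠ 0 := by exact_mod_cast s.n_pos.ne'
  have hH0 : (Nat.card H : ℂ) ≠ 0 := by exact_mod_cast Nat.card_pos.ne'
  have hG0 : (Nat.card G : ℂ) ≠ 0 := by exact_mod_cast Nat.card_pos.ne'
  have h1 := cs_self s.n_pos s.hl s.hc (t := t) hχ hg hχg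
  have h2 := (s.ti_pow ht).sum (F := fun g => χ g * χ g⁻¹) (fun g x => by
    have e : (x * g * x⁻¹)⁻¹ = x * g⁻¹ * x⁻¹ := by group
    rw [e, hχ.conj, hχ.conj])
  let f : H → ℂ := fun h => if lr l H h = c ^ t then χ h else 0
  have hf : IsCl f := by
    intro h x
    change (if lr l H (x * h * x⁻¹) = c ^ t then χ ((x * h * x⁻¹ : H) : G) else 0) = _
    rw [l_conj]
    congr 1
    exact hχ.conj h x
  have h3 := parseval_norm hf
  have h4 : ∀ ψ, IC.B f ψ = (n : ℂ)⁻¹ * cs (lr l H) (c ^ t) n (rs H χ) ψ := by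
    intro ψ
    unfold IC.B cs
    have : ∀ h : H, f h * ψ h⁻¹ = if lr l H h = c ^ t then rs H χ h * ψ h⁻¹ else 0 := by
      intro h
      change (if lr l H h = c ^ t then χ h else 0) * ψ h⁻¹ = _
      split_ifs <;> simp
    rw [Finset.sum_congr rfl fun h _ => this h]
    field_simp
  have h5 : ∑ ψ ∈ IC.Irr H, ‖IC.B f ψ‖ ^ 2 =
      ((n : ℝ) ^ 2)⁻¹ * ∑ ψ ∈ IC.Irr H, ‖cs (lr l H) (c ^ t) n (rs H χ) ψ‖ ^ 2 := by
    rw [Finset.mul_sum]
    refine Finset.sum_congr rfl fun ψ _ => ?_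
    rw [h4, norm_mul, norm_inv, Complex.norm_natCast, mul_pow, inv_pow]
  have h6 : ((∑ h : H, ‖f h‖ ^ 2 : ℝ) : ℂ) =
      ∑ k : H, (if l k = c ^ t then χ k * χ (k : G)⁻¹ else 0) := by
    push_cast
    refine Finset.sum_congr rfl fun h _ => ?_
    change ((‖(if lr l H h = c ^ t then χ h else 0 : ℂ)‖ : ℝ) : ℂ) ^ 2 = _
    have e : lr l H h = l h := rfl
    rw [e]
    split_ifs
    · rw [conj_inv hχ]
      push_cast
      rfl
    · simp
  have h7 : (n : ℂ) * (Nat.card H : ℂ)⁻¹ * ((∑ h : H, ‖f h‖ ^ 2 : ℝ) : ℂ) = 1 := by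
    rw [h6, ← h1]
    unfold cs
    rw [mul_assoc, mul_assoc]
    congr 1
    rw [inv_mul_eq_iff_eq_mul₀ hH0]
    have h8 : (∑ k : H, if l k = c ^ t then χ k * χ (k : G)⁻¹ else 0) =
        (Nat.card G : ℂ)⁻¹ * ((Nat.card H : ℂ) * ∑ g : G, if l g = c ^ t then χ g * χ g⁻¹ else 0) := by
      refine (eq_inv_mul_iff_mul_eq₀ hG0).mpr ?_
      convert h2.symm using 4
    rw [h8]
    ring
  have h9 : (n : ℝ) * ((Nat.card H : ℝ)⁻¹ * ∑ h : H, ‖f h‖ ^ 2) = 1 := by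
    have : (((n : ℝ) * ((Nat.card H : ℝ)⁻¹ * ∑ h : H, ‖f h‖ ^ 2) : ℝ) : ℂ) = ((1 : ℝ) : ℂ) := by
      rw [Complex.ofReal_one, ← h7]
      push_cast
      ring
    exact_mod_cast this
  rw [h3, h5] at h9
  have hn0' : (n : ℝ) ≠ 0 := by exact_mod_cast s.n_pos.ne'
  field_simp at h9
  exact h9

lemma card_T : ((Finset.range (p * q)).filter (fun t => ¬ p ∣ t)).card = (p - 1) * q := by
  have h1 := sum_range_mul' hp.out.pos q (fun _ => 1)
  simp only [Finset.sum_const, Finset.card_range, smul_eq_mul, mul_one] at h1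
  rw [Nat.sub_mul, one_mul]
  omega

lemma nonvanish {χ : G → ℂ} {ψ : H → ℂ} (hψ : IsIrr ψ)
    (h : cs (lr l H) c (p * q) (rs H χ) ψ ≠ 0) :
    ∃ h : H, l h = c ∧ χ h ≠ 0 ∧ ψ h ≠ 0 := by
  unfold cs at h
  obtain ⟨x, _, hx⟩ := Finset.exists_ne_zero_of_sum_ne_zero (right_ne_zero_of_mul h)
  rw [ne_eq, ite_eq_right_iff, not_forall] at hx
  obtain ⟨h1, h2⟩ := hx
  refine ⟨x, h1, left_ne_zero_of_mul h2, ?_⟩
  have h3 := right_ne_zero_of_mul h2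
  rw [conj_char hψ] at h3
  intro h4
  rw [h4, map_zero] at h3
  exact h3 rfl

/-- the main step -/
theorem core {χ : G → ℂ} (hχ : IsIrr χ) {ψ : H → ℂ} (hψ : IsIrr ψ)
    (h : cs (lr l H) c (p * q) (rs H χ) ψ ≠ 0) :
    ∃ j₀ : ℕ, ∃ ε : ℤ, (ε = 1 ∨ ε = -1) ∧
      ∀ k : H, l k = c → χ k = ε * ((c⁻¹ : ℂˣ) : ℂ) ^ j₀ * ψ k := by
  set n := p * q with hn
  have hpos : 0 < n := s.n_pos
  have hp2 := hp.out.two_le
  obtain ⟨k₀, hk₀, hχk, hψk⟩ := s.nonvanish hψ h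
  set a : ℕ → (H → ℂ) → ℂ := fun t ψ => cs (lr l H) (c ^ t) n (rs H χ) ψ with ha
  have ha1 : ∀ ψ, a 1 ψ = cs (lr l H) c n (rs H χ) ψ := fun ψ => by rw [ha]; simp
  set T := (Finset.range n).filter (fun t => ¬ p ∣ t) with hT
  have hTcard : T.card = (p - 1) * q := s.card_T
  -- total energy
  have htot : ∑ ψ ∈ IC.Irr H, ∑ t ∈ T, ‖a t ψ‖ ^ 2 = (((p - 1) * q : ℕ) : ℝ) * (n : ℝ) := by
    rw [Finset.sum_comm, Finset.sum_congr rfl (g := fun _ => (n : ℝ)), Finset.sum_const, hTcard,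
      nsmul_eq_mul]
    intro t ht
    exact s.norm_eq hχ hk₀ hχk (Finset.mem_filter.mp ht).2
  -- each contributes
  have hlow : ∀ ψ, IsIrr ψ → a 1 ψ ≠ 0 → (((p - 1) * q : ℕ) : ℝ) ≤ ∑ t ∈ T, ‖a t ψ‖ ^ 2 := by
    intro ψ hψ hne
    obtain ⟨m, hm⟩ := s.mult hχ hψ
    have h1 := (avg_main s.q_ne s.prim m (by
      have := hm 1
      simp only [one_mul] at this
      rw [← this]
      exact hne)).1
    rw [Nat.cast_mul]
    refine h1.trans (le_of_eq ?_)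
    refine Finset.sum_congr rfl fun t _ => ?_
    rw [← hm t]
  set Z := (IC.Irr H).filter (fun ψ => a 1 ψ ≠ 0) with hZ
  have hψZ : ψ ∈ Z := Finset.mem_filter.mpr ⟨mem_Irr.mpr hψ, by rw [ha1]; exact h⟩
  have hE : 0 < (((p - 1) * q : ℕ) : ℝ) := by
    have : 0 < (p - 1) * q := Nat.mul_pos (by omega) (Nat.pos_of_ne_zero s.q_ne)
    exact_mod_cast this
  have hZle : ∑ ψ ∈ Z, ∑ t ∈ T, ‖a t ψ‖ ^ 2 ≤ (((p - 1) * q : ℕ) : ℝ) * (n : ℝ) := by
    rw [← htot]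
    exact Finset.sum_le_sum_of_subset_of_nonneg (Finset.filter_subset _ _)
      (fun ψ _ _ => Finset.sum_nonneg fun t _ => by positivity)
  have hZlow : ∀ ψ ∈ Z, (((p - 1) * q : ℕ) : ℝ) ≤ ∑ t ∈ T, ‖a t ψ‖ ^ 2 := fun ψ hψ =>
    hlow ψ (mem_Irr.mp (Finset.mem_filter.mp hψ).1) (Finset.mem_filter.mp hψ).2
  have hZcard : Z.card ≤ n := by
    have h1 : (Z.card : ℝ) * (((p - 1) * q : ℕ) : ℝ) ≤ (((p - 1) * q : ℕ) : ℝ) * (n : ℝ) := by
      rw [← nsmul_eq_mul]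
      exact (Finset.card_nsmul_le_sum Z _ _ hZlow).trans hZle
    rw [mul_comm] at h1
    exact_mod_cast le_of_mul_le_mul_left h1 hE
  -- the orbit
  have hinj : Set.InjOn (fun j => tw ((lr l H) ^ j) ψ) (Finset.range n : Set ℕ) := by
    intro i hi j hj hij
    rw [Finset.coe_range, Set.mem_Iio] at hi hj
    exact free (l := lr l H) s.hc (g := k₀) hk₀ hψk hi hj hij
  set Ob := (Finset.range n).image (fun j => tw ((lr l H) ^ j) ψ) with hOb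
  have hOcard : Ob.card = n := by
    rw [hOb, Finset.card_image_of_injOn hinj, Finset.card_range]
  have hOZ : Ob ⊆ Z := by
    intro φ hφ
    obtain ⟨j, _, rfl⟩ := Finset.mem_image.mp hφ
    refine Finset.mem_filter.mpr ⟨mem_Irr.mpr (tw_irr _ hψ), ?_⟩
    rw [ha1, cs_tw_right]
    exact mul_ne_zero (pow_ne_zero _ (Units.ne_zero _)) h
  have hOZ' : Ob = Z := Finset.eq_of_subset_of_card_le hOZ (by rw [hOcard]; exact hZcard)
  have hZn : Z.card = n := by rw [← hOZ', hOcard]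
  -- equality
  have hup : ∑ t ∈ T, ‖a t ψ‖ ^ 2 ≤ (((p - 1) * q : ℕ) : ℝ) := by
    have h1 := Finset.add_sum_erase Z (fun ψ => ∑ t ∈ T, ‖a t ψ‖ ^ 2) hψZ
    have h2 : ((n - 1 : ℕ) : ℝ) * (((p - 1) * q : ℕ) : ℝ) ≤
        ∑ φ ∈ Z.erase ψ, ∑ t ∈ T, ‖a t φ‖ ^ 2 := by
      have h3 := Finset.card_nsmul_le_sum (Z.erase ψ) (fun φ => ∑ t ∈ T, ‖a t φ‖ ^ 2)
        (((p - 1) * q : ℕ) : ℝ) (fun φ hφ => hZlow φ (Finset.mem_of_mem_erase hφ))
      rwa [Finset.card_erase_of_mem hψZ, hZn, nsmul_eq_mul] at h3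
    have h4 : ((n - 1 : ℕ) : ℝ) = (n : ℝ) - 1 := by
      rw [Nat.cast_sub (by omega), Nat.cast_one]
    rw [h4] at h2
    have h5 := hZle
    rw [← h1] at h5
    linarith
  obtain ⟨m, hm⟩ := s.mult hχ hψ
  have h1 := (avg_main s.q_ne s.prim m (by
      have := hm 1
      simp only [one_mul] at this
      rw [← this, pow_one]
      exact h)).2 (by
      rw [Nat.cast_mul] at hup
      refine le_trans (le_of_eq ?_) hup
      refine Finset.sum_congr rfl fun t _ => ?_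
      rw [← hm t])
  obtain ⟨j₀, ε, hε, hval⟩ := h1
  have hp1 : ¬ p ∣ 1 := fun h => by
    have := Nat.le_of_dvd one_pos h
    omega
  have ha1ψ : a 1 ψ = ε * ((c⁻¹ : ℂˣ) : ℂ) ^ j₀ := by
    have h2 := hval 1 hp1
    rw [← hm 1, one_mul] at h2
    exact h2
  refine ⟨j₀, ε, hε, fun k hk => ?_⟩
  -- values
  let f : H → ℂ := fun h => if lr l H h = c then χ h else 0
  have hf : IsCl f := by
    intro h x
    change (if lr l H (x * h * x⁻¹) = c then χ ((x * h * x⁻¹ : H) : G) else 0) = _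
    rw [l_conj]
    congr 1
    exact hχ.conj h x
  have hn0 : (n : ℂ) ≠ 0 := by exact_mod_cast hpos.ne'
  have h4 : ∀ ψ, IC.B f ψ = (n : ℂ)⁻¹ * a 1 ψ := by
    intro ψ
    rw [ha1]
    unfold IC.B cs
    have : ∀ h : H, f h * ψ h⁻¹ = if lr l H h = c then rs H χ h * ψ h⁻¹ else 0 := by
      intro h
      change (if lr l H h = c then χ h else 0) * ψ h⁻¹ = _
      split_ifs <;> simp
    rw [Finset.sum_congr rfl fun h _ => this h]
    field_simp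
  have h5 := congrFun (IC.expand f hf) k
  have h6 : f k = χ k := if_pos hk
  rw [h6] at h5
  simp only [Finset.sum_apply, Pi.smul_apply, smul_eq_mul, h4] at h5
  rw [h5]
  have h7 : ∑ φ ∈ IC.Irr H, (n : ℂ)⁻¹ * a 1 φ * φ k = ∑ φ ∈ Z, (n : ℂ)⁻¹ * a 1 φ * φ k := by
    rw [hZ, Finset.sum_filter]
    refine Finset.sum_congr rfl fun φ _ => ?_
    split_ifs with h8
    · rfl
    · rw [not_not.mp h8]
      ring
  rw [h7, ← hOZ', hOb, Finset.sum_image hinj]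
  have h8 : ∀ j ∈ Finset.range n, (n : ℂ)⁻¹ * a 1 (tw ((lr l H) ^ j) ψ) *
      tw ((lr l H) ^ j) ψ k = (n : ℂ)⁻¹ * (a 1 ψ * ψ k) := by
    intro j _
    rw [ha1, cs_tw_right, ← ha1, tw_pow]
    have h9 : (lr l H) k = c := hk
    rw [h9]
    have h10 : ((c⁻¹ : ℂˣ) : ℂ) ^ j * (c : ℂ) ^ j = 1 := by
      rw [← mul_pow, ← Units.val_mul, inv_mul_cancel, Units.val_one, one_pow]
    calc (n : ℂ)⁻¹ * (((c⁻¹ : ℂˣ) : ℂ) ^ j * a 1 ψ) * ((c : ℂ) ^ j * ψ k)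
        = (((c⁻¹ : ℂˣ) : ℂ) ^ j * (c : ℂ) ^ j) * ((n : ℂ)⁻¹ * (a 1 ψ * ψ k)) := by ring
      _ = _ := by rw [h10, one_mul]
  rw [Finset.sum_congr rfl h8, Finset.sum_const, Finset.card_range, nsmul_eq_mul, ha1ψ,
    mul_inv_cancel_left₀ hn0]

end Setup

end Pool.Agent.Q21.CO
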