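import Pool.Agent.Q21.CO.Mem
import Pool.Agent.Y62.Main1

/-!
Blocks and heights under the correspondence.
-/

set_option linter.unusedSectionVars false

open scoped BigOperators Classical
open Pool.Agent.Helper884 Representation Pool.Agent.H254R3.IN Pool.Agent.Y62

noncomputable section

namespace Pool.Agent.Q21.CO

variable {G : Type} [Group G] [Fintype G]

variable {O : ValuationSubring ℂ} {p : ℕ} [hp : Fact p.Prime]

/-- regular elements are killed by characters of `p`-power order -/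
lemma lin_regular {p k : ℕ} [hp : Fact p.Prime] {a : G →* ℂˣ} (ha : ∀ g, a g ^ p ^ k = 1) {s : G}
    (hs : ¬ p ∣ orderOf s) : a s = 1 := by
  have h1 : orderOf (a s) ∣ p ^ k := orderOf_dvd_of_pow_eq_one (ha s)
  have h2 : orderOf (a s) ∣ orderOf s := orderOf_map_dvd a s
  have h3 : Nat.Coprime (p ^ k) (orderOf s) :=
    Nat.Coprime.pow_left k ((Nat.Prime.coprime_iff_not_dvd hp.out).mpr hs)
  have h4 := Nat.dvd_gcd h1 h2
  rw [h3] at h4
  exact orderOf_eq_one_iff.mp (Nat.dvd_one.mp h4)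

/-- a good element -/
lemma exists_s {D : Subgroup G} (hpO : (p : ℂ) ∈ O.nonunits) {B : Set (G → ℂ)}
    {b : Set (Subgroup.normalizer (D : Set G) → ℂ)}
    (hB : IsBlock O B) (hD : IsDefectGroup p O B D) (hb : IsBrauerCorrespondent p O D B b) :
    ∃ s : NN D, (s : G) ∈ Sp p D ∧ ¬ p ∣ kk D (s : G) ∧ (∀ χ ∈ B, red O (omega χ (s : G)) ≠ 0) ∧
      ∀ θ ∈ b, red O (omega θ s) ≠ 0 := by
  have hDp : IsPGroup p D := defect_pgroup hD
  have hnorm : (DD D).Normal := Subgroup.normal_in_normalizer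
  have := charP_RF hpO
  obtain ⟨χ, hχ⟩ := hB.nonempty
  obtain ⟨θ, hθ⟩ := hb.1.nonempty
  have hχi := hB.irr χ hχ
  have hθi := hb.1.irr θ hθ
  have hcc := (cc_ne_zero (D := DD D) hpO (pgroup_DD hDp) hb.1
    (fun θ hθ => uu_mem hpO hb.1 hb.2.1 hθ) hθ).1
  rw [← cc_eq hpO hDp hχi hθi (hb.2.2 χ hχ θ hθ)] at hcc
  unfold cc at hcc
  obtain ⟨K, hK, hne⟩ := Finset.exists_ne_zero_of_sum_ne_zero hcc
  obtain ⟨s, hs, hc⟩ := (Finset.mem_filter.mp hK).2
  have h1 : ¬ p ∣ kk D s := by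
    rw [← kk_congr D hc]
    intro h
    have h' : ((kk D (rep K) : ℕ) : RF O) = 0 :=
      (CharP.cast_eq_zero_iff (RF O) p (kk D (rep K))).mpr h
    exact left_ne_zero_of_mul hne h'
  have h2 : red O (omega χ s) ≠ 0 := by
    rw [← hχi.omega_congr hc]
    exact left_ne_zero_of_mul (right_ne_zero_of_mul hne)
  refine ⟨⟨s, cent_le_NN hs.2⟩, hs, h1, fun χ' hχ' => ?_, fun θ' hθ' => ?_⟩
  · rw [hB.red_eq hχ' hχ]
    exact h2
  · have h3 := lam_eq (y := (⟨s, cent_le_NN hs.2⟩ : NN D)) hpO hDp hχi (hb.1.irr _ hθ')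
      (hb.2.2 χ hχ θ' hθ') hs h1
    rw [← h3]
    exact h2

/-- heights and values -/
lemma height_val {K : Type} [Group K] [Fintype K] {D : Subgroup K} (hpO : (p : ℂ) ∈ O.nonunits)
    {χ : K → ℂ} (hχ : IsIrr χ)
    (hu : uu D χ ∈ O) {s : K} (hs : s ∈ Subgroup.centralizer (D : Set K)) (hk : ¬ p ∣ kk D s)
    (hω : red O (omega χ s) ≠ 0) : red O (χ s) ≠ 0 ↔ red O (uu D χ) ≠ 0 := by
  have := charP_RF hpO
  rw [val_eq_kk hχ (IsConj.refl s) hs, red_mul (O.mul_mem _ _ (hχ.omega_mem O s) hu) (natCast_mem' _),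
    red_mul (hχ.omega_mem O s) hu, red_natCast]
  have h1 : ((kk D s : ℕ) : RF O) ≠ 0 := fun h =>
    hk ((CharP.cast_eq_zero_iff (RF O) p (kk D s)).mp h)
  constructor
  · intro h
    exact right_ne_zero_of_mul (left_ne_zero_of_mul h)
  · intro h
    exact mul_ne_zero (mul_ne_zero hω h) h1

section congr

variable {N H : Subgroup G} {y : G} {P : Sylow p G}
  (d : Dat p N y H P) {l : G →* ℂˣ} (hl : ∀ g, l g = 1 ↔ g ∈ N)

include d hl

/-- the induced block -/
theorem ind_block (hpO : (p : ℂ) ∈ O.nonunits) {χ : G → ℂ} {ψ : H → ℂ} (hχ : IsIrr χ)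
    (hψ : IsIrr ψ) (hR : Rel p l (l y) H χ ψ) {s : H} (hls : l s = 1) (hys : Commute y (s : G))
    (hred : red O (χ s) ≠ 0) (x : G) :
    red O (χ s) = red O ((hR.choose : ℤ) : ℂ) * red O (ψ s) ∧
    omega χ x - ∑ᶠ z : {z : H // IsConj x (z : G)}, ψ z / ψ 1 ∈ O.nonunits := by
  obtain ⟨k₀, hk₀⟩ := d.ord_y
  have hspec := hR.choose_spec
  set ε := hR.choose with hε
  obtain ⟨_, hval⟩ := hspec
  have hyH : y ∈ H := d.hPH d.hyP
  set y' : H := ⟨y, hyH⟩ with hy'
  have hk₀' : orderOf y' = p ^ k₀ := by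
    rw [hy', Subgroup.orderOf_mk]
    exact hk₀
  have hys' : Commute y' s := Subtype.ext hys
  have hχO : ∀ g, χ g ∈ O := fun g => hχ.val_mem O g
  have hψO : ∀ g, ψ g ∈ O := fun g => hψ.val_mem O g
  have hεO : (ε : ℂ) ∈ O := intCast_mem' ε
  -- values at `s`
  have hredG : ∀ t : ℕ, red O (χ (y ^ t * s)) = red O (χ s) := val_red hpO hχ hk₀ hys
  have hredH : ∀ t : ℕ, red O (ψ (y' ^ t * s)) = red O (ψ s) := val_red hpO hψ hk₀' hys'
  have h1 : red O (χ s) = red O (ε : ℂ) * red O (ψ s) := by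
    rw [← hredG 1, ← hredH 1, ← red_mul hεO (hψO _)]
    congr 1
    have h2 := hval (y' ^ 1 * s) (by
      change l (y ^ 1 * s) = l y
      rw [map_mul, hls, pow_one, mul_one])
    exact h2
  refine ⟨h1, ?_⟩
  have hψs : red O (ψ s) ≠ 0 := by
    intro h
    rw [h, mul_zero] at h1
    exact hred h1
  have hε0 : red O (ε : ℂ) ≠ 0 := by
    intro h
    rw [h, zero_mul] at h1
    exact hred h1
  -- the element `g`
  obtain ⟨n, hn, i, hx⟩ := d.gen' x
  have hlx : l x = l y ^ i := by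
    rw [← hx, map_mul, (hl n).mpr hn, one_mul, map_zpow]
  obtain ⟨t, ht⟩ : ∃ t : ℕ, y ^ t = y ^ (1 - i) := by
    have h2 : y ^ (1 - i) ∈ Submonoid.powers y :=
      (isOfFinOrder_of_finite y).mem_powers_iff_mem_zpowers.mpr ⟨1 - i, rfl⟩
    obtain ⟨t, ht⟩ := h2
    exact ⟨t, ht⟩
  set g : G := y ^ t * s with hg
  have hlg : l g = l y ^ (1 - i) := by
    rw [hg, map_mul, hls, mul_one, ht, map_zpow]
  set g' : H := y' ^ t * s with hg'
  have hgg' : (g' : G) = g := rfl
  have hyg : Commute y g := (Commute.refl y).pow_right t |>.mul_right hys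
  have hyg' : Commute y' g' := (Commute.refl y').pow_right t |>.mul_right hys'
  -- the two sums
  let f' : H → ℂ := fun h => ci x (h : G)
  have hf'cl : IsCl f' := fun a b => ind_cl x (a : G) (b : G)
  have hfO : ∀ z, ci x z ∈ O := ind_mem O x
  have hA : red O (omega χ x) * red O (χ g) = ∑ z : G, red O (ci x z * χ (z * g)) := by
    rw [← red_mul (hχ.omega_mem O x) (hχO g), ← red_sum _ _ fun z _ => O.mul_mem _ _ (hfO z) (hχO _),
      ← Om_ind hχ x, ← conv_scalar hχ (ind_cl x) g]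
  have hB : red O (Om f' ψ) * red O (ψ g') = ∑ z : H, red O (f' z * ψ (z * g')) := by
    rw [← red_mul (Om_mem hψ hf'cl fun z => hfO z) (hψO g'),
      ← red_sum Finset.univ (fun z => f' z * ψ (z * g')) fun z _ =>
        O.mul_mem _ _ (hfO z) (hψO _), ← conv_scalar hψ hf'cl g']
  have hyP : IsPGroup p (Subgroup.zpowers y) := by
    apply IsPGroup.of_card (n := k₀)
    rw [Nat.card_zpowers, hk₀]
  have hyP' : IsPGroup p (Subgroup.zpowers y') := by
    apply IsPGroup.of_card (n := k₀)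
    rw [Nat.card_zpowers, hk₀']
  have hA2 := sum_fix (MulAut.conj.comp (Subgroup.zpowers y).subtype) hpO hyP
    (fun z => red O (ci x z * χ (z * g))) (by
      rintro ⟨a, ha⟩ z
      have hag : Commute a g := by
        obtain ⟨j, rfl⟩ := Subgroup.mem_zpowers_iff.mp ha
        exact hyg.zpow_left j
      have e1 : (MulAut.conj.comp (Subgroup.zpowers y).subtype) ⟨a, ha⟩ z = a * z * a⁻¹ := rfl
      have e2 : a * z * a⁻¹ * g = a * (z * g) * a⁻¹ := by
        have : a⁻¹ * g = g * a⁻¹ := (hag.inv_left).eq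
        rw [mul_assoc, this]
        group
      have e3 : ci x (a * z * a⁻¹) = ci x z := ind_cl x z a
      change red O (ci x ((MulAut.conj.comp (Subgroup.zpowers y).subtype) ⟨a, ha⟩ z) *
        χ ((MulAut.conj.comp (Subgroup.zpowers y).subtype) ⟨a, ha⟩ z * g)) = _
      rw [e1, e2, e3, hχ.conj])
  have hB2 := sum_fix (MulAut.conj.comp (Subgroup.zpowers y').subtype) hpO hyP'
    (fun z => red O (f' z * ψ (z * g'))) (by
      rintro ⟨a, ha⟩ z
      have hag : Commute a g' := by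
        obtain ⟨j, rfl⟩ := Subgroup.mem_zpowers_iff.mp ha
        exact hyg'.zpow_left j
      have e1 : (MulAut.conj.comp (Subgroup.zpowers y').subtype) ⟨a, ha⟩ z = a * z * a⁻¹ := rfl
      have e2 : a * z * a⁻¹ * g' = a * (z * g') * a⁻¹ := by
        have : a⁻¹ * g' = g' * a⁻¹ := (hag.inv_left).eq
        rw [mul_assoc, this]
        group
      have e3 : f' (a * z * a⁻¹) = f' z := hf'cl z a
      change red O (f' ((MulAut.conj.comp (Subgroup.zpowers y').subtype) ⟨a, ha⟩ z) *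
        ψ ((MulAut.conj.comp (Subgroup.zpowers y').subtype) ⟨a, ha⟩ z * g')) = _
      rw [e1, e2, e3, hψ.conj])
  have hfixG : ∀ z : G, z ∈ fixS (MulAut.conj.comp (Subgroup.zpowers y).subtype) → y * z = z * y := by
    intro z hz
    have h2 := (mem_fixS _).mp hz ⟨y, Subgroup.mem_zpowers y⟩
    have e1 : (MulAut.conj.comp (Subgroup.zpowers y).subtype) ⟨y, Subgroup.mem_zpowers y⟩ z =
      y * z * y⁻¹ := rfl
    rw [e1] at h2
    exact mul_inv_eq_iff_eq_mul.mp h2
  have hfixG' : ∀ z : G, y * z = z * y → z ∈ fixS (MulAut.conj.comp (Subgroup.zpowers y).subtype) := by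
    intro z hz
    rw [mem_fixS]
    rintro ⟨a, ha⟩
    have hag : Commute a z := by
      obtain ⟨j, rfl⟩ := Subgroup.mem_zpowers_iff.mp ha
      exact Commute.zpow_left hz j
    have e1 : (MulAut.conj.comp (Subgroup.zpowers y).subtype) ⟨a, ha⟩ z = a * z * a⁻¹ := rfl
    rw [e1, hag.eq]
    group
  have hfixH : ∀ z : H, z ∈ fixS (MulAut.conj.comp (Subgroup.zpowers y').subtype) ↔
      y * (z : G) = z * y := by
    intro z
    rw [mem_fixS]
    constructor
    · intro hz
      have h2 := hz ⟨y', Subgroup.mem_zpowers y'⟩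
      have e1 : (MulAut.conj.comp (Subgroup.zpowers y').subtype) ⟨y', Subgroup.mem_zpowers y'⟩ z =
        y' * z * y'⁻¹ := rfl
      rw [e1] at h2
      exact congrArg Subtype.val (mul_inv_eq_iff_eq_mul.mp h2)
    · rintro hz ⟨a, ha⟩
      have hz' : Commute y' z := Subtype.ext hz
      have hag : Commute a z := by
        obtain ⟨j, rfl⟩ := Subgroup.mem_zpowers_iff.mp ha
        exact Commute.zpow_left hz' j
      have e1 : (MulAut.conj.comp (Subgroup.zpowers y').subtype) ⟨a, ha⟩ z = a * z * a⁻¹ := rfl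
      rw [e1, hag.eq]
      group
  have hcent : ∀ z : G, y * z = z * y → z ∈ H := by
    intro z hz
    apply d.hC y d.hyP (by rw [inv_mul_cancel]; exact N.one_mem)
    rw [Subgroup.mem_centralizer_singleton_iff]
    exact hz.symm
  have hcomp : ∑ z ∈ Finset.univ.filter (· ∈ fixS (MulAut.conj.comp (Subgroup.zpowers y).subtype)),
        red O (ci x z * χ (z * g)) =
      ∑ z ∈ Finset.univ.filter (· ∈ fixS (MulAut.conj.comp (Subgroup.zpowers y').subtype)),
        red O (ε : ℂ) * red O (f' z * ψ (z * g')) := by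
    refine Finset.sum_bij' (fun z hz => (⟨z, hcent z (hfixG z (Finset.mem_filter.mp hz).2)⟩ : H))
      (fun z _ => (z : G)) ?_ ?_ ?_ ?_ ?_
    · intro z hz
      exact Finset.mem_filter.mpr ⟨Finset.mem_univ _, (hfixH _).mpr (hfixG z (Finset.mem_filter.mp hz).2)⟩
    · intro z hz
      exact Finset.mem_filter.mpr ⟨Finset.mem_univ _, hfixG' _ ((hfixH z).mp (Finset.mem_filter.mp hz).2)⟩
    · intro z hz
      rfl
    · intro z hz
      rfl
    · intro z hz
      have hzH := hcent z (hfixG z (Finset.mem_filter.mp hz).2)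
      change red O (ci x z * χ (z * g)) = red O (ε : ℂ) * red O (ci x z * ψ ((⟨z, hzH⟩ : H) * g'))
      rw [← red_mul hεO (O.mul_mem _ _ (hfO z) (hψO _))]
      congr 1
      by_cases hc : IsConj x z
      · have hlz : l z = l y ^ i := by
          obtain ⟨w, hw⟩ := isConj_iff.mp hc
          rw [← hw, l_conj, hlx]
        have h2 := hval ((⟨z, hzH⟩ : H) * g') (by
          change l (z * g) = l y
          rw [map_mul, hlz, hlg, ← zpow_add, add_sub_cancel, zpow_one])
        have h3 : χ (z * g) = ε * ψ ((⟨z, hzH⟩ : H) * g') := h2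
        rw [h3]
        ring
      · have h2 : ci x z = 0 := if_neg hc
        rw [h2]
        ring
  rw [hA2, hcomp, ← Finset.mul_sum, ← hB2, ← hB, hg, hredG t] at hA
  rw [hg', hredH t, h1] at hA
  have h5 : red O (omega χ x) = red O (Om f' ψ) := by
    have h6 : red O (ε : ℂ) * red O (ψ s) ≠ 0 := mul_ne_zero hε0 hψs
    apply mul_right_cancel₀ h6
    rw [hA]
    ring
  have h6 : Om f' ψ = ∑ᶠ z : {z : H // IsConj x (z : G)}, ψ z / ψ 1 := by
    unfold Om
    rw [finsum_eq_sum_of_fintype, Finset.sum_div]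
    have h7 : ∀ z : H, f' z * ψ z / ψ 1 = if IsConj x (z : G) then ψ z / ψ 1 else 0 := by
      intro z
      change (if IsConj x (z : G) then (1 : ℂ) else 0) * ψ z / ψ 1 = _
      split_ifs <;> simp
    rw [Finset.sum_congr rfl fun z _ => h7 z, ← Finset.sum_filter]
    exact Finset.sum_subtype (p := fun z : H => IsConj x (z : G))
      (Finset.univ.filter (fun z : H => IsConj x (z : G))) (by simp) (fun z => ψ z / ψ 1)
  rw [← h6]
  exact (red_eq_iff (hχ.omega_mem O x) (Om_mem hψ hf'cl fun z => hfO z)).mp h5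

end congr

end Pool.Agent.Q21.CO
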