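import Pool.Agent.Q21.CO.Grp

/-!
Blocks of `N_G(D)` which induce the same block of `G`.
-/

set_option linter.unusedSectionVars false

open scoped BigOperators Classical
open Pool.Agent.Helper884 Representation Pool.Agent.H254R3.IN Pool.Agent.Y62

noncomputable section

namespace Pool.Agent.Q21.CO

/-- the indicator of a class -/
abbrev ci {G : Type} [Group G] (x : G) : G → ℂ := Pool.Agent.H254R3.IN.ind x

section coef

variable {K : Type} [Group K] [Fintype K] {O : ValuationSubring ℂ} {p : ℕ} [hp : Fact p.Prime]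

lemma coef (hpO : (p : ℂ) ∈ O.nonunits) {D : Subgroup K} (hD : IsPGroup p D) {g h s : K}
    (hg : g ∈ Subgroup.centralizer (D : Set K)) (hs : s ∈ Subgroup.centralizer (D : Set K))
    (hks : ¬ p ∣ kk D s) (hkg : p ∣ kk D g) : red O (conv (ci h) (ci s) g) = 0 := by
  obtain ⟨n, hn⟩ := IsPGroup.iff_card.mp hD
  have h1 := kk_mul hg
  have h2 := kk_mul hs
  have h3 : p ^ (n + 1) ∣ Nat.card (Subgroup.centralizer ({g} : Set K)) := by
    rw [← h1, hn, pow_succ']
    exact Nat.mul_dvd_mul hkg dvd_rfl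
  obtain ⟨Q, hQ⟩ := Sylow.exists_subgroup_card_pow_prime p h3
  have hQp : IsPGroup p Q := IsPGroup.of_card hQ
  let ι : Q →* K := (Subgroup.centralizer ({g} : Set K)).subtype.comp Q.subtype
  have hcom : ∀ q : Q, ι q * g = g * ι q := fun q =>
    Subgroup.mem_centralizer_singleton_iff.mp (Subtype.prop (q : Subgroup.centralizer ({g} : Set K)))
  unfold conv
  have hmem : ∀ x, ci h x * ci s (x⁻¹ * g) ∈ O := fun x =>
    O.mul_mem _ _ (ind_mem O h x) (ind_mem O s _)
  rw [red_sum _ _ fun x _ => hmem x]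
  rw [sum_fix (MulAut.conj.comp ι) hpO hQp (fun x => red O (ci h x * ci s (x⁻¹ * g)))]
  · apply Finset.sum_eq_zero
    intro x hx
    rw [Finset.mem_filter, mem_fixS] at hx
    have hfix : ∀ q : Q, ι q * x = x * ι q := by
      intro q
      have h4 := hx.2 q
      simp only [MonoidHom.comp_apply, MulAut.conj_apply] at h4
      exact mul_inv_eq_iff_eq_mul.mp h4
    by_cases hc : IsConj s (x⁻¹ * g)
    · exfalso
      apply hks
      have h5 : Nat.card Q ∣ Nat.card (Subgroup.centralizer ({x⁻¹ * g} : Set K)) := by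
        have h6 : ∀ q : Q, ι q ∈ Subgroup.centralizer ({x⁻¹ * g} : Set K) := by
          intro q
          rw [Subgroup.mem_centralizer_singleton_iff]
          have h7 : ι q * x⁻¹ = x⁻¹ * ι q := by
            calc ι q * x⁻¹ = x⁻¹ * (x * ι q) * x⁻¹ := by group
              _ = x⁻¹ * (ι q * x) * x⁻¹ := by rw [hfix q]
              _ = x⁻¹ * ι q := by group
          rw [← mul_assoc, h7, mul_assoc, hcom q, mul_assoc]
        let j : Q →* Subgroup.centralizer ({x⁻¹ * g} : Set K) := ι.codRestrict _ h6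
        have hinj : Function.Injective j := by
          intro a b hab
          have h8 : ι a = ι b := congrArg (fun z : Subgroup.centralizer ({x⁻¹ * g} : Set K) =>
            (z : K)) hab
          exact Subtype.ext (Subtype.ext h8)
        exact Subgroup.card_dvd_of_injective j hinj
      rw [← card_centralizer_congr hc, ← h2, hn, hQ, pow_succ'] at h5
      exact Nat.dvd_of_mul_dvd_mul_right (pow_pos hp.out.pos n) h5
    · have h9 : ci s (x⁻¹ * g) = 0 := if_neg hc
      rw [h9, mul_zero, red_zero]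
  · intro q x
    have h4 : (MulAut.conj.comp ι) q x = ι q * x * (ι q)⁻¹ := rfl
    rw [h4]
    have h5 : (ι q * x * (ι q)⁻¹)⁻¹ * g = ι q * (x⁻¹ * g) * (ι q)⁻¹ := by
      have h6 : (ι q)⁻¹ * g = g * (ι q)⁻¹ := by
        have := hcom q
        calc (ι q)⁻¹ * g = (ι q)⁻¹ * (g * ι q) * (ι q)⁻¹ := by group
          _ = (ι q)⁻¹ * (ι q * g) * (ι q)⁻¹ := by rw [this]
          _ = g * (ι q)⁻¹ := by group
      calc (ι q * x * (ι q)⁻¹)⁻¹ * g = ι q * x⁻¹ * ((ι q)⁻¹ * g) := by group
        _ = ι q * (x⁻¹ * g) * (ι q)⁻¹ := by rw [h6]; group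
    have h6 : ci h (ι q * x * (ι q)⁻¹) = ci h x := ind_cl h x (ι q)
    have h7 : ci s (ι q * (x⁻¹ * g) * (ι q)⁻¹) = ci s (x⁻¹ * g) := ind_cl s _ (ι q)
    rw [h5, h6, h7]

end coef

variable {G : Type} [Group G] [Fintype G]

variable {O : ValuationSubring ℂ} {p : ℕ} [hp : Fact p.Prime] {D : Subgroup G}

lemma fusion' (hD : IsPGroup p D) {y z : NN D} (hy : (y : G) ∈ Subgroup.centralizer (D : Set G))
    (hz : (z : G) ∈ Subgroup.centralizer (D : Set G))
    (h : IsConj (y : G) (z : G)) (hk : ¬ p ∣ kk D (y : G)) : IsConj y z := by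
  obtain ⟨c, hc⟩ := isConj_iff.mp h
  set Z := Subgroup.centralizer ({(z : G)} : Set G) with hZ
  have hle1 : D ≤ Z := le_centralizer hz
  set D2 : Subgroup G := D.map (MulAut.conj c).toMonoidHom with hD2
  have hle2 : D2 ≤ Z := by
    intro x hx
    obtain ⟨d, hd, rfl⟩ := Subgroup.mem_map.mp hx
    rw [hZ, Subgroup.mem_centralizer_iff]
    intro w hw
    rw [Set.mem_singleton_iff.mp hw, ← hc]
    have h1 := Subgroup.mem_centralizer_iff.mp hy d hd
    simp only [MulEquiv.toMonoidHom_eq_coe, MonoidHom.coe_coe, MulAut.conj_apply]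
    have e1 : c * (y : G) * c⁻¹ * (c * d * c⁻¹) = c * ((y : G) * d) * c⁻¹ := by group
    have e2 : c * d * c⁻¹ * (c * (y : G) * c⁻¹) = c * (d * (y : G)) * c⁻¹ := by group
    rw [e1, e2, h1]
  have hcardD2 : Nat.card D2 = Nat.card D :=
    (Nat.card_congr (D.equivMapOfInjective _ (MulAut.conj c).injective).toEquiv).symm
  have hkz : Nat.card Z = kk D (y : G) * Nat.card D := by
    rw [kk_congr D h, kk_mul hz]
  have hDpos : 0 < Nat.card D := Nat.card_pos
  have hidx : ∀ E : Subgroup G, E ≤ Z → Nat.card E = Nat.card D →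
      (E.subgroupOf Z).index = kk D (y : G) := by
    intro E hE hEc
    have h1 := Subgroup.card_mul_index (E.subgroupOf Z)
    rw [Nat.card_congr (Subgroup.subgroupOfEquivOfLe hE).toEquiv, hEc, hkz, mul_comm] at h1
    exact Nat.eq_of_mul_eq_mul_right hDpos h1
  have hp1 : IsPGroup p (D.subgroupOf Z) :=
    hD.of_equiv (Subgroup.subgroupOfEquivOfLe hle1).symm
  have hp2 : IsPGroup p (D2.subgroupOf Z) :=
    (hD.map (MulAut.conj c).toMonoidHom).of_equiv (Subgroup.subgroupOfEquivOfLe hle2).symm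
  let P1 : Sylow p Z := hp1.toSylow (by rw [hidx D hle1 rfl]; exact hk)
  let P2 : Sylow p Z := hp2.toSylow (by rw [hidx D2 hle2 hcardD2]; exact hk)
  obtain ⟨g, hg⟩ := MulAction.exists_smul_eq Z P2 P1
  have hmem : ∀ x : Z, x ∈ D2.subgroupOf Z ↔ g * x * g⁻¹ ∈ D.subgroupOf Z := by
    intro x
    have h1 : (g • P2 : Sylow p Z) = P1 := hg
    have h2 : ((g • P2 : Sylow p Z) : Subgroup Z) = D.subgroupOf Z := by
      rw [h1]
      exact IsPGroup.toSylow_coe _ _
    have h3 : ((P2 : Sylow p Z) : Subgroup Z) = D2.subgroupOf Z := IsPGroup.toSylow_coe _ _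
    rw [← h2, ← h3, Sylow.coe_subgroup_smul, ← MulAut.conj_apply]
    exact (Subgroup.smul_mem_pointwise_smul_iff (a := MulAut.conj g)).symm
  have hn : (g : G) * c ∈ NN D := by
    rw [Subgroup.mem_normalizer_iff]
    intro d
    constructor
    · intro hd
      have h1 : c * d * c⁻¹ ∈ D2 := Subgroup.mem_map.mpr ⟨d, hd, rfl⟩
      have h2 := (hmem ⟨c * d * c⁻¹, hle2 h1⟩).mp (by
        rw [Subgroup.mem_subgroupOf]; exact h1)
      rw [Subgroup.mem_subgroupOf] at h2
      have e : (g : G) * c * d * ((g : G) * c)⁻¹ = (g : G) * (c * d * c⁻¹) * (g : G)⁻¹ := by group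
      rw [e]
      exact h2
    · intro hd
      have e : (g : G) * c * d * ((g : G) * c)⁻¹ = (g : G) * (c * d * c⁻¹) * (g : G)⁻¹ := by group
      rw [e] at hd
      have hZ' : c * d * c⁻¹ ∈ Z := by
        have h3 := hle1 hd
        have h4 := Z.mul_mem (Z.mul_mem (Z.inv_mem g.2) h3) g.2
        have e3 : (g : G)⁻¹ * ((g : G) * (c * d * c⁻¹) * (g : G)⁻¹) * (g : G) = c * d * c⁻¹ := by
          group
        rwa [e3] at h4
      have h2 := (hmem ⟨c * d * c⁻¹, hZ'⟩).mpr (by
        rw [Subgroup.mem_subgroupOf]; exact hd)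
      rw [Subgroup.mem_subgroupOf] at h2
      obtain ⟨d', hd', he⟩ := Subgroup.mem_map.mp h2
      have : d' = d := (MulAut.conj c).injective he
      rw [← this]
      exact hd'
  refine isConj_iff.mpr ⟨⟨(g : G) * c, hn⟩, Subtype.ext ?_⟩
  have hgz : (z : G) * (g : G) = (g : G) * z := Subgroup.mem_centralizer_iff.mp g.2 (z : G) rfl
  change (g : G) * c * (y : G) * ((g : G) * c)⁻¹ = z
  have e : (g : G) * c * (y : G) * ((g : G) * c)⁻¹ = (g : G) * (c * y * c⁻¹) * (g : G)⁻¹ := by group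
  rw [e, hc, ← hgz]
  group

section

variable (hpO : (p : ℂ) ∈ O.nonunits) (hD : IsPGroup p D) {χ : G → ℂ} {θ : NN D → ℂ}
  (hχ : IsIrr χ) (hθ : IsIrr θ)
  (hind : ∀ x : G, omega χ x - ∑ᶠ y : {y : NN D // IsConj x (y : G)}, θ y / θ 1 ∈ O.nonunits)

include hpO hD hχ hθ hind

/-- classes of `G` with defect group `D` -/
lemma lam_eq' {y : NN D} (hy : (y : G) ∈ Subgroup.centralizer (D : Set G))
    (hk : ¬ p ∣ kk D (y : G)) : red O (omega χ (y : G)) = red O (omega θ y) := by
  have : (DD D).Normal := Subgroup.normal_in_normalizer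
  rw [induced_sum hχ hθ (hind y), Finset.sum_eq_single (ConjClasses.mk y)]
  · rw [hθ.omega_congr (rep_mk y)]
  · intro L hL hne
    have hL' := (Finset.mem_filter.mp hL).2
    apply lam_zero hpO (pgroup_DD hD) hθ
    intro hcon
    apply hne
    rw [mem_cent_DD] at hcon
    have h1 := fusion' hD hy hcon hL' hk
    rw [eq_comm, mk_eq_iff]
    exact h1.symm
  · intro h
    exfalso
    apply h
    refine Finset.mem_filter.mpr ⟨Finset.mem_univ _, ?_⟩
    exact (conj_coe (rep_mk y)).symm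

end

/-- blocks of `N_G(D)` inducing the same block -/
theorem same_block (hpO : (p : ℂ) ∈ O.nonunits) (hD : IsPGroup p D) {χ : G → ℂ} {θ ψ : NN D → ℂ}
    (hχ : IsIrr χ) (hθ : IsIrr θ) (hψ : IsIrr ψ)
    (h1 : ∀ x : G, omega χ x - ∑ᶠ y : {y : NN D // IsConj x (y : G)}, θ y / θ 1 ∈ O.nonunits)
    (h2 : ∀ x : G, omega χ x - ∑ᶠ y : {y : NN D // IsConj x (y : G)}, ψ y / ψ 1 ∈ O.nonunits)
    {s : NN D} (hs : (s : G) ∈ Subgroup.centralizer (D : Set G)) (hk : ¬ p ∣ kk D (s : G))
    (hne : red O (omega χ (s : G)) ≠ 0) (h : NN D) :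
    red O (omega ψ h) = red O (omega θ h) := by
  have hnorm : (DD D).Normal := Subgroup.normal_in_normalizer
  have hsθ := lam_eq' hpO hD hχ hθ h1 hs hk
  have hsψ := lam_eq' hpO hD hχ hψ h2 hs hk
  have hkk : ∀ z : NN D, (z : G) ∈ Subgroup.centralizer (D : Set G) →
      (p ∣ kk (DD D) z ↔ p ∣ kk D (z : G)) := fun z hz => (kk_modEq hD z hz).dvd_iff dvd_rfl
  have key : ∀ φ : NN D → ℂ, IsIrr φ → red O (omega φ h) * red O (omega φ s) =
      ∑ K : ConjClasses (NN D), red O (conv (ci h) (ci s) (rep K)) * red O (omega φ (rep K)) := by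
    intro φ hφ
    rw [← Om_red hφ (IsCl.conv (ind_cl h) (ind_cl s)) (conv_mem (ind_mem O h) (ind_mem O s)),
      Om_conv hφ (ind_cl h) (ind_cl s), Om_ind hφ, Om_ind hφ,
      red_mul (hφ.omega_mem O _) (hφ.omega_mem O _)]
  have h3 : red O (omega ψ h) * red O (omega ψ s) = red O (omega θ h) * red O (omega θ s) := by
    rw [key ψ hψ, key θ hθ]
    refine Finset.sum_congr rfl fun K _ => ?_
    by_cases hK : ((rep K : NN D) : G) ∈ Subgroup.centralizer (D : Set G)
    · by_cases hkK : p ∣ kk D ((rep K : NN D) : G)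
      · rw [coef hpO (pgroup_DD hD) ((mem_cent_DD _).mpr hK) ((mem_cent_DD _).mpr hs)
          (fun h4 => hk ((hkk s hs).mp h4)) ((hkk _ hK).mpr hkK), zero_mul, zero_mul]
      · rw [← lam_eq' hpO hD hχ hθ h1 hK hkK, ← lam_eq' hpO hD hχ hψ h2 hK hkK]
    · rw [lam_zero hpO (pgroup_DD hD) hψ (fun h4 => hK ((mem_cent_DD _).mp h4)),
        lam_zero hpO (pgroup_DD hD) hθ (fun h4 => hK ((mem_cent_DD _).mp h4))]
  rw [← hsψ, ← hsθ] at h3
  exact mul_right_cancel₀ hne h3

end Pool.Agent.Q21.CO
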