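import Pool.Agent.Q21.CO.TI
import Pool.Agent.Y62.Low2

/-!
Sums over cosets.
-/

set_option linter.unusedSectionVars false

open scoped BigOperators Classical
open Pool.Agent.Helper884 Representation Pool.Agent.H254R3.IN Pool.Agent.Y62

noncomputable section

namespace Pool.Agent.Q21.CO

/-- the coset of the kernel on which `l` takes the value `c` is a trivial intersection set with
respect to `H` and is covered by the conjugates of `H` -/
structure TI {G : Type} [Group G] {A : Type} [CommGroup A] (l : G →* A) (c : A)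
    (H : Subgroup G) : Prop where
  ti : ∀ g h : G, h ∈ H → l h = c → g⁻¹ * h * g ∈ H → g ∈ H
  cover : ∀ g : G, l g = c → ∃ a : G, a⁻¹ * g * a ∈ H

section ti

variable {G : Type} [Group G] {A : Type} [CommGroup A] {l : G →* A} {c : A} {H : Subgroup G}

lemma TI.pow (h : TI l c H) {t t' : ℕ} (ht : (c ^ t) ^ t' = c) : TI l (c ^ t) H := by
  constructor
  · intro g x hx hlx hgx
    refine h.ti g (x ^ t') (H.pow_mem hx _) (by rw [map_pow, hlx, ht]) ?_
    have e : g⁻¹ * x ^ t' * g = (g⁻¹ * x * g) ^ t' := by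
      have := conj_pow (i := t') (a := g⁻¹) (b := x)
      rw [inv_inv] at this
      exact this.symm
    rw [e]
    exact H.pow_mem hgx _
  · intro g hg
    obtain ⟨a, ha⟩ := h.cover (g ^ t') (by rw [map_pow, hg, ht])
    refine ⟨a, ?_⟩
    refine h.ti (a⁻¹ * g * a) (a⁻¹ * g ^ t' * a) ha (by rw [l_conj', map_pow, hg, ht]) ?_
    have e : (a⁻¹ * g * a)⁻¹ * (a⁻¹ * g ^ t' * a) * (a⁻¹ * g * a) = a⁻¹ * g ^ t' * a := by
      have h1 : g⁻¹ * g ^ t' * g = g ^ t' := by
        rw [mul_assoc, ← pow_succ, pow_succ', inv_mul_cancel_left]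
      calc (a⁻¹ * g * a)⁻¹ * (a⁻¹ * g ^ t' * a) * (a⁻¹ * g * a)
          = a⁻¹ * (g⁻¹ * g ^ t' * g) * a := by group
        _ = a⁻¹ * g ^ t' * a := by rw [h1]
    rw [e]
    exact ha

variable [Fintype G]

/-- comparison of sums over the cosets -/
lemma TI.sum (h : TI l c H) {F : G → ℂ} (hF : ∀ g x, F (x * g * x⁻¹) = F g) :
    (Nat.card H : ℂ) * ∑ g : G, (if l g = c then F g else 0) =
      (Nat.card G : ℂ) * ∑ k : H, (if l k = c then F k else 0) := by
  have h1 : ∀ x : G, ∑ g : G, (if l g = c ∧ x⁻¹ * g * x ∈ H then F g else 0) =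
      ∑ k : H, (if l k = c then F k else 0) := by
    intro x
    have e1 : ∑ g : G, (if l g = c ∧ x⁻¹ * g * x ∈ H then F g else 0) =
        ∑ g : G, (if l g = c ∧ g ∈ H then F g else 0) := by
      refine Fintype.sum_equiv (MulAut.conj x⁻¹).toEquiv _ _ fun g => ?_
      have e : (MulAut.conj x⁻¹).toEquiv g = x⁻¹ * g * x := by simp
      rw [e, l_conj']
      have e2 : F (x⁻¹ * g * x) = F g := by
        have := hF g x⁻¹
        rwa [inv_inv] at this
      rw [e2]
    rw [e1]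
    have e3 : ∀ g : G, (if l g = c ∧ g ∈ H then F g else 0) =
        if g ∈ H then (if l g = c then F g else 0) else 0 := by
      intro g
      by_cases h1 : g ∈ H <;> by_cases h2 : l g = c <;> simp [h1, h2]
    simp only [e3]
    rw [← Finset.sum_filter]
    exact Finset.sum_subtype (p := fun g => g ∈ H) (Finset.univ.filter fun g => g ∈ H)
      (by simp) (fun g => if l g = c then F g else 0)
  have h2 : ∑ x : G, ∑ g : G, (if l g = c ∧ x⁻¹ * g * x ∈ H then F g else 0) =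
      (Nat.card G : ℂ) * ∑ k : H, (if l k = c then F k else 0) := by
    rw [Finset.sum_congr rfl fun x _ => h1 x, Finset.sum_const, Finset.card_univ, nsmul_eq_mul,
      Nat.card_eq_fintype_card]
  rw [← h2, Finset.sum_comm, Finset.mul_sum]
  refine Finset.sum_congr rfl fun g _ => ?_
  by_cases hg : l g = c
  · obtain ⟨a, ha⟩ := h.cover g hg
    have h3 : ∀ x : G, x⁻¹ * g * x ∈ H ↔ a⁻¹ * x ∈ H := by
      intro x
      constructor
      · intro hx
        refine h.ti (a⁻¹ * x) (a⁻¹ * g * a) ha (by rw [l_conj', hg]) ?_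
        have : (a⁻¹ * x)⁻¹ * (a⁻¹ * g * a) * (a⁻¹ * x) = x⁻¹ * g * x := by group
        rwa [this]
      · intro hx
        have h4 := H.mul_mem (H.mul_mem (H.inv_mem hx) ha) hx
        have : (a⁻¹ * x)⁻¹ * (a⁻¹ * g * a) * (a⁻¹ * x) = x⁻¹ * g * x := by group
        rwa [this] at h4
    simp only [hg, true_and, if_true, h3]
    rw [← Finset.sum_filter, Finset.sum_const, nsmul_eq_mul]
    congr 1
    have h5 : (Finset.univ.filter fun x : G => a⁻¹ * x ∈ H).card = Nat.card H := by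
      rw [← Fintype.card_subtype, ← Nat.card_eq_fintype_card]
      exact Nat.card_congr
        { toFun := fun x => ⟨a⁻¹ * x.1, x.2⟩
          invFun := fun k => ⟨a * k.1, by simp⟩
          left_inv := fun x => by simp
          right_inv := fun k => by simp }
    rw [h5]
  · simp [hg]

end ti

section cs

variable {K : Type} [Group K] [Fintype K]

/-- the inner product on a coset -/
def cs (l : K →* ℂˣ) (c : ℂˣ) (n : ℕ) (f h : K → ℂ) : ℂ :=
  (n : ℂ) * (Nat.card K : ℂ)⁻¹ * ∑ g : K, if l g = c then f g * h g⁻¹ else 0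

lemma geom {u : ℂˣ} {n : ℕ} (hu : u ^ n = 1) :
    ∑ j ∈ Finset.range n, (u : ℂ) ^ j = if u = 1 then (n : ℂ) else 0 := by
  split_ifs with h
  · rw [h]
    simp
  · have h1 := geom_sum_mul (u : ℂ) n
    have h2 : (u : ℂ) ^ n = 1 := by
      rw [← Units.val_pow_eq_pow_val, hu, Units.val_one]
    rw [h2, sub_self] at h1
    rcases mul_eq_zero.mp h1 with h3 | h3
    · exact h3
    · exfalso
      apply h
      apply Units.ext
      rw [Units.val_one]
      exact sub_eq_zero.mp h3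

lemma tw_pow (l : K →* ℂˣ) (j : ℕ) (f : K → ℂ) (g : K) : tw (l ^ j) f g = (l g : ℂ) ^ j * f g := by
  unfold tw
  rw [MonoidHom.pow_apply, Units.val_pow_eq_pow_val]

lemma cs_eq {l : K →* ℂˣ} {c : ℂˣ} {n : ℕ} (hl : ∀ g, l g ^ n = 1) (hc : c ^ n = 1) (f h : K → ℂ) :
    cs l c n f h = ∑ j ∈ Finset.range n, ((c⁻¹ : ℂˣ) : ℂ) ^ j * IC.B (tw (l ^ j) f) h := by
  unfold cs IC.B
  have h1 : ∀ g : K, (if l g = c then f g * h g⁻¹ else 0) * (n : ℂ) =
      ∑ j ∈ Finset.range n, ((c⁻¹ : ℂˣ) : ℂ) ^ j * (tw (l ^ j) f g * h g⁻¹) := by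
    intro g
    have h2 : (l g * c⁻¹) ^ n = 1 := by rw [mul_pow, hl, inv_pow, hc]; simp
    have h3 := geom h2
    have h4 : (l g * c⁻¹ = 1) ↔ l g = c := mul_inv_eq_one
    simp only [h4] at h3
    have h5 : ∑ j ∈ Finset.range n, ((c⁻¹ : ℂˣ) : ℂ) ^ j * (tw (l ^ j) f g * h g⁻¹) =
        (∑ j ∈ Finset.range n, ((l g * c⁻¹ : ℂˣ) : ℂ) ^ j) * (f g * h g⁻¹) := by
      rw [Finset.sum_mul]
      refine Finset.sum_congr rfl fun j _ => ?_
      rw [tw_pow, Units.val_mul, mul_pow]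
      ring
    rw [h5, h3]
    split_ifs <;> ring
  rw [mul_comm (n : ℂ), mul_assoc, Finset.mul_sum]
  simp only [mul_comm (n : ℂ), h1]
  rw [Finset.sum_comm, Finset.mul_sum]
  refine Finset.sum_congr rfl fun j _ => ?_
  rw [← Finset.mul_sum]
  ring

lemma cs_irr {l : K →* ℂˣ} {c : ℂˣ} {n : ℕ} (hl : ∀ g, l g ^ n = 1) (hc : c ^ n = 1)
    {χ ψ : K → ℂ} (hχ : IsIrr χ) (hψ : IsIrr ψ) :
    cs l c n χ ψ = ∑ j ∈ Finset.range n, ((c⁻¹ : ℂˣ) : ℂ) ^ j *
      (if tw (l ^ j) χ = ψ then 1 else 0) := by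
  rw [cs_eq hl hc]
  refine Finset.sum_congr rfl fun j _ => ?_
  rw [IC.B_irr (tw_irr _ hχ) hψ]

lemma cs_tw_right (l : K →* ℂˣ) (c : ℂˣ) (n j : ℕ) (f h : K → ℂ) :
    cs l c n f (tw (l ^ j) h) = ((c⁻¹ : ℂˣ) : ℂ) ^ j * cs l c n f h := by
  unfold cs
  have : ∀ g : K, (if l g = c then f g * tw (l ^ j) h g⁻¹ else 0) =
      ((c⁻¹ : ℂˣ) : ℂ) ^ j * (if l g = c then f g * h g⁻¹ else 0) := by
    intro g
    split_ifs with h1
    · rw [tw_pow, map_inv, h1]
      ring
    · rw [mul_zero]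
  rw [Finset.sum_congr rfl fun g _ => this g, ← Finset.mul_sum]
  ring

/-- a character which does not vanish on the coset has a free orbit -/
lemma free {l : K →* ℂˣ} {c : ℂˣ} {n : ℕ} (hc : orderOf c = n) {χ : K → ℂ} {g : K}
    (hg : l g = c) (hχ : χ g ≠ 0) {i j : ℕ} (hi : i < n) (hj : j < n)
    (h : tw (l ^ i) χ = tw (l ^ j) χ) : i = j := by
  have h1 := congrFun h g
  rw [tw_pow, tw_pow, hg] at h1
  have h2 := mul_right_cancel₀ hχ h1
  have h3 : c ^ i = c ^ j := by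
    apply Units.ext
    rw [Units.val_pow_eq_pow_val, Units.val_pow_eq_pow_val]
    exact h2
  exact pow_injOn_Iio_orderOf (by rw [Set.mem_Iio, hc]; exact hi) (by rw [Set.mem_Iio, hc]; exact hj) h3

lemma tw_zero (l : K →* ℂˣ) (χ : K → ℂ) : tw (l ^ 0) χ = χ := by
  funext g
  rw [tw_pow, pow_zero, one_mul]

lemma cs_self {l : K →* ℂˣ} {c : ℂˣ} {n : ℕ} (hn : 0 < n) (hl : ∀ g, l g ^ n = 1)
    (hc : orderOf c = n) {t : ℕ} {χ : K → ℂ} (hχ : IsIrr χ) {g : K}
    (hg : l g = c) (hχg : χ g ≠ 0) : cs l (c ^ t) n χ χ = 1 := by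
  have hc' : (c ^ t) ^ n = 1 := by
    rw [← pow_mul, mul_comm, pow_mul, ← hc, pow_orderOf_eq_one, one_pow]
  rw [cs_irr hl hc' hχ hχ, Finset.sum_eq_single 0]
  · rw [if_pos (tw_zero l χ)]
    simp
  · intro j hj hj0
    rw [if_neg, mul_zero]
    intro h
    rw [← tw_zero l χ, ← tw_zero l (tw (l ^ j) (tw (l ^ 0) χ)), tw_zero, tw_zero] at h
    apply hj0
    exact free hc hg hχg (Finset.mem_range.mp hj) hn (h.trans (tw_zero l χ).symm)
  · intro h
    exact absurd (Finset.mem_range.mpr hn) h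

end cs

end Pool.Agent.Q21.CO
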