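import Mathlib

/-!
Cosets which are trivial intersection sets.
-/

open scoped BigOperators

noncomputable section

namespace Pool.Agent.Q21.CO

variable {G : Type} [Group G]

/-- the conjugate `g K g⁻¹` -/
def cj (g : G) (K : Subgroup G) : Subgroup G := K.map (MulAut.conj g).toMonoidHom

lemma mem_cj {g x : G} {K : Subgroup G} : x ∈ cj g K ↔ g⁻¹ * x * g ∈ K := by
  unfold cj
  rw [Subgroup.mem_map]
  constructor
  · rintro ⟨k, hk, rfl⟩
    have : g⁻¹ * (MulAut.conj g).toMonoidHom k * g = k := by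
      simp [mul_assoc]
    rwa [this]
  · intro h
    exact ⟨_, h, by simp [mul_assoc]⟩

lemma card_cj (g : G) (K : Subgroup G) : Nat.card (cj g K) = Nat.card K := by
  unfold cj
  exact (Nat.card_congr (Subgroup.equivMapOfInjective K _ (MulAut.conj g).injective).toEquiv).symm

variable {A : Type} [CommGroup A] {l : G →* A} {c : A}

lemma l_conj (g x : G) : l (g * x * g⁻¹) = l x := by
  rw [map_mul, map_mul, map_inv]
  exact mul_inv_cancel_comm _ _

lemma l_conj' (g x : G) : l (g⁻¹ * x * g) = l x := by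
  rw [map_mul, map_mul, map_inv]
  exact inv_mul_cancel_comm _ _

variable {p : ℕ} [hp : Fact p.Prime]

/-- the counting argument -/
theorem norm_le [Finite G] {H R M : Subgroup G} (hR : IsPGroup p R) {x₀ : G} (hx₀ : x₀ ∈ R)
    (hl : l x₀ = c) (hcen : ∀ x ∈ R, l x = c → Subgroup.centralizer ({x} : Set G) ≤ H)
    (hM : M = Subgroup.normalizer (R : Set G)) (S : Sylow p M)
    (hS : ∀ s ∈ S, (s : G) ∈ H) : M ≤ H := by
  set K := H.subgroupOf M with hK
  rw [← Subgroup.subgroupOf_eq_top, ← hK, ← Subgroup.index_eq_one]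
  by_contra hne
  obtain ⟨q, hq, hqd⟩ := Nat.exists_prime_and_dvd hne
  have hqf : Fact q.Prime := ⟨hq⟩
  by_cases hqp : q = p
  · subst hqp
    have h1 : (S : Subgroup M) ≤ K := fun s hs => Subgroup.mem_subgroupOf.mpr (hS s hs)
    exact S.not_dvd_index (hqd.trans (Subgroup.index_dvd_of_le h1))
  · obtain ⟨Q⟩ : Nonempty (Sylow q M) := inferInstance
    apply Q.not_dvd_index
    refine hqd.trans (Subgroup.index_dvd_of_le ?_)
    -- the action on the coset
    let Ω := {r : G // r ∈ R ∧ l r = c}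
    have hnorm : ∀ m : M, ∀ r ∈ R, (m : G) * r * (m : G)⁻¹ ∈ R := fun m r hr =>
      (Subgroup.mem_normalizer_iff.mp (hM ▸ m.2) r).mp hr
    let act : MulAction (Q : Subgroup M) Ω :=
      { smul := fun s r => ⟨(s.1 : G) * r.1 * (s.1 : G)⁻¹, hnorm s.1 r.1 r.2.1, by
          rw [l_conj]; exact r.2.2⟩
        one_smul := fun r => Subtype.ext (by
          change ((1 : M) : G) * r.1 * ((1 : M) : G)⁻¹ = r.1
          simp)
        mul_smul := fun s t r => Subtype.ext (by
          change ((s.1 * t.1 : M) : G) * r.1 * ((s.1 * t.1 : M) : G)⁻¹ =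
            (s.1 : G) * ((t.1 : G) * r.1 * (t.1 : G)⁻¹) * (s.1 : G)⁻¹
          simp [mul_assoc]) }
    have hcard : Nat.card Ω = Nat.card (R ⊓ l.ker : Subgroup G) := by
      refine Nat.card_congr
        { toFun := fun r => ⟨x₀⁻¹ * r.1, R.mul_mem (R.inv_mem hx₀) r.2.1, by
            change l (x₀⁻¹ * r.1) = 1
            rw [map_mul, map_inv, hl, r.2.2, inv_mul_cancel]⟩
          invFun := fun k => ⟨x₀ * k.1, R.mul_mem hx₀ k.2.1, by
            have h1 : l k.1 = 1 := k.2.2
            rw [map_mul, hl, h1, mul_one]⟩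
          left_inv := fun r => Subtype.ext (by simp)
          right_inv := fun k => Subtype.ext (by simp) }
    have hnd : ¬ q ∣ Nat.card Ω := by
      rw [hcard]
      intro h
      have h1 : q ∣ Nat.card R := h.trans (Subgroup.card_dvd_of_le inf_le_left)
      obtain ⟨k, hk⟩ := IsPGroup.iff_card.mp hR
      rw [hk] at h1
      exact hqp ((Nat.prime_dvd_prime_iff_eq hq hp.out).mp (hq.dvd_of_dvd_pow h1))
    obtain ⟨r, hr⟩ := Q.isPGroup'.nonempty_fixed_point_of_prime_not_dvd_card Ω hnd
    intro s hs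
    rw [Subgroup.mem_subgroupOf]
    apply hcen r.1 r.2.1 r.2.2
    rw [Subgroup.mem_centralizer_singleton_iff]
    have h1 : (s : G) * r.1 * (s : G)⁻¹ = r.1 := congrArg Subtype.val (hr ⟨s, hs⟩)
    exact mul_inv_eq_iff_eq_mul.mp h1

/-- normalisers grow -/
lemma grow [Finite G] {Q R : Subgroup G} (hQ : IsPGroup p Q) (h : R < Q) :
    ∃ z ∈ Q, z ∉ R ∧ z ∈ Subgroup.normalizer (R : Set G) := by
  have hnil : Group.IsNilpotent Q := hQ.isNilpotent
  have h1 : R.subgroupOf Q < ⊤ := by
    rw [lt_top_iff_ne_top, Ne, Subgroup.subgroupOf_eq_top]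
    exact not_le_of_gt h
  have h2 := Group.normalizerCondition_of_isNilpotent (R.subgroupOf Q) h1
  obtain ⟨z, hz, hz'⟩ := SetLike.exists_of_lt h2
  refine ⟨z, z.2, fun hzR => hz' (Subgroup.mem_subgroupOf.mpr hzR), ?_⟩
  rw [Subgroup.mem_normalizer_iff] at hz ⊢
  intro r
  by_cases hr : r ∈ Q
  · exact hz ⟨r, hr⟩
  · constructor
    · intro h3
      exact absurd (h.le h3) hr
    · intro h3
      have h4 : (z : G) * r * (z : G)⁻¹ ∈ Q := h.le h3
      exfalso
      apply hr
      have h5 := Q.mul_mem (Q.mul_mem (Q.inv_mem z.2) h4) z.2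
      have h6 : (z : G)⁻¹ * ((z : G) * r * (z : G)⁻¹) * z = r := by group
      rwa [h6] at h5

lemma card_lt [Finite G] {R T : Subgroup G} (h : R ≤ T) {z : G} (hz : z ∈ T) (hz' : z ∉ R) :
    Nat.card R < Nat.card T := by
  have h1 : R < T := lt_of_le_of_ne h (fun h2 => hz' (h2 ▸ hz))
  exact Set.ncard_lt_ncard (SetLike.coe_ssubset_coe.mpr h1) (Set.toFinite _)

variable [Finite G] {H : Subgroup G} (P : Sylow p G) (hPH : (P : Subgroup G) ≤ H)
  (hC : ∀ x ∈ P, l x = c → Subgroup.centralizer ({x} : Set G) ≤ H)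

include hPH hC

theorem ti_sylow (n : ℕ) : ∀ g : G,
    Nat.card P - Nat.card ((P : Subgroup G) ⊓ cj g P : Subgroup G) = n →
    (∃ x ∈ (P : Subgroup G) ⊓ cj g P, l x = c) → g ∈ H := by
  induction n using Nat.strong_induction_on with
  | _ n ih =>
    intro g hn ⟨x, hx, hlx⟩
    set R := (P : Subgroup G) ⊓ cj g P with hR
    have hRp : IsPGroup p R := P.isPGroup'.to_le (inf_le_left : R ≤ (P : Subgroup G))
    have hcR : ∀ x ∈ R, l x = c → Subgroup.centralizer ({x} : Set G) ≤ H := fun x hx =>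
      hC x hx.1
    have hcard_le : Nat.card R ≤ Nat.card P :=
      Subgroup.card_le_of_le (inf_le_left : R ≤ (P : Subgroup G))
    by_cases hRP : R = P
    · -- `g` normalises `P`
      have h0 : R ≤ cj g (P : Subgroup G) := inf_le_right
      have h1 : (P : Subgroup G) ≤ cj g P := by rwa [hRP] at h0
      have h2 : (P : Subgroup G) = cj g P :=
        Subgroup.eq_of_le_of_card_ge h1 (card_cj g _).le
      have key : ∀ t, t ∈ (P : Subgroup G) ↔ g⁻¹ * t * g ∈ (P : Subgroup G) := by
        intro t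
        rw [← mem_cj, ← h2]
      have h3 : g ∈ Subgroup.normalizer ((P : Subgroup G) : Set G) := by
        rw [Subgroup.mem_normalizer_iff]
        intro k
        have e : g⁻¹ * (g * k * g⁻¹) * g = k := by group
        have h4 := key (g * k * g⁻¹)
        rw [e] at h4
        exact h4.symm
      refine norm_le (R := (P : Subgroup G)) (l := l) (c := c) P.isPGroup' (x₀ := x) hx.1 hlx hC rfl
        (P.subtype Subgroup.le_normalizer) ?_ h3
      intro s hs
      have hs' : s ∈ ((P.subtype Subgroup.le_normalizer : Sylow p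
        (Subgroup.normalizer ((P : Subgroup G) : Set G))) : Subgroup _) := hs
      rw [Sylow.coe_subtype, Subgroup.mem_subgroupOf] at hs'
      exact hPH hs'
    · have hlt : R < P := lt_of_le_of_ne (inf_le_left : R ≤ (P : Subgroup G)) hRP
      have hcj : Nat.card (cj g (P : Subgroup G)) = Nat.card P := card_cj g _
      have hlt' : R < cj g P := by
        refine lt_of_le_of_ne inf_le_right fun h => hRP ?_
        have h1 : Nat.card R = Nat.card P := by rw [h, hcj]
        exact Subgroup.eq_of_le_of_card_ge inf_le_left h1.ge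
      have hcjp : IsPGroup p (cj g (P : Subgroup G)) := P.isPGroup'.map _
      have hcard_lt : Nat.card R < Nat.card P := by
        obtain ⟨z, hz, hz'⟩ := SetLike.exists_of_lt hlt
        exact card_lt hlt.le hz hz'
      set M := Subgroup.normalizer (R : Set G) with hM
      have hRM : R ≤ M := Subgroup.le_normalizer
      -- the Sylow subgroup containing `P ∩ M`
      obtain ⟨z, hzP, hzR, hzM⟩ := grow P.isPGroup' hlt
      obtain ⟨S, hS⟩ := (P.isPGroup'.to_le (inf_le_left : (P : Subgroup G) ⊓ M ≤ P)).comap_subtype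
        (K := M) |>.exists_le_sylow
      have hSp : IsPGroup p ((S : Subgroup M).map M.subtype) := S.isPGroup'.map _
      obtain ⟨P₂, hP₂⟩ := hSp.exists_le_sylow
      obtain ⟨a, ha⟩ := MulAction.exists_smul_eq G P P₂
      have hP₂' : (P₂ : Subgroup G) = cj a P := by
        rw [← ha]; rfl
      rw [hP₂'] at hP₂
      have hTa : (P : Subgroup G) ⊓ M ≤ cj a P := by
        intro t ht
        apply hP₂
        refine ⟨⟨t, ht.2⟩, hS ?_, rfl⟩
        rw [Subgroup.mem_comap]
        exact ht
      have haH : a ∈ H := by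
        refine ih _ ?_ a rfl ⟨x, ⟨hx.1, hTa ⟨hx.1, hRM hx⟩⟩, hlx⟩
        have h1 : Nat.card R < Nat.card ((P : Subgroup G) ⊓ cj a P : Subgroup G) := by
          refine (card_lt (R := R) (T := (P : Subgroup G) ⊓ M) (le_inf inf_le_left hRM)
            ⟨hzP, hzM⟩ hzR).trans_le (Subgroup.card_le_of_le ?_)
          exact le_inf inf_le_left hTa
        have h2 : Nat.card ((P : Subgroup G) ⊓ cj a P : Subgroup G) ≤ Nat.card P :=
          Subgroup.card_le_of_le inf_le_left
        omega
      have haP : cj a (P : Subgroup G) ≤ H := by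
        intro t ht
        rw [mem_cj] at ht
        have h1 := H.mul_mem (H.mul_mem haH (hPH ht)) (H.inv_mem haH)
        have h2 : a * (a⁻¹ * t * a) * a⁻¹ = t := by group
        rwa [h2] at h1
      have hMH : M ≤ H := norm_le (l := l) (c := c) hRp hx hlx hcR rfl S fun s hs =>
        haP (hP₂ ⟨s, hs, rfl⟩)
      -- the second Sylow subgroup
      obtain ⟨z', hz'P, hz'R, hz'M⟩ := grow hcjp hlt'
      obtain ⟨S₁, hS₁⟩ := (hcjp.to_le (inf_le_left : cj g (P : Subgroup G) ⊓ M ≤ _)).comap_subtype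
        (K := M) |>.exists_le_sylow
      obtain ⟨m, hm⟩ := MulAction.exists_smul_eq M S S₁
      have hT₁ : cj g (P : Subgroup G) ⊓ M ≤ cj ((m : G) * a) P := by
        intro t ht
        have h1 : (⟨t, ht.2⟩ : M) ∈ (S₁ : Subgroup M) := hS₁ (by
          rw [Subgroup.mem_comap]
          exact ht)
        rw [← hm, Sylow.coe_subgroup_smul] at h1
        have h2 : m⁻¹ * (⟨t, ht.2⟩ : M) * m ∈ (S : Subgroup M) := by
          have := (Subgroup.mem_pointwise_smul_iff_inv_smul_mem).mp h1
          rw [← map_inv, MulAut.smul_def, MulAut.conj_apply, inv_inv] at this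
          exact this
        have h3 : ((m⁻¹ * (⟨t, ht.2⟩ : M) * m : M) : G) ∈ cj a (P : Subgroup G) :=
          hP₂ ⟨_, h2, rfl⟩
        rw [mem_cj] at h3 ⊢
        have h4 : ((m : G) * a)⁻¹ * t * ((m : G) * a) =
            a⁻¹ * ((m⁻¹ * (⟨t, ht.2⟩ : M) * m : M) : G) * a := by
          simp only [Subgroup.coe_mul, Subgroup.coe_inv]
          group
        rwa [h4]
      have hgma : g⁻¹ * (m : G) * a ∈ H := by
        have hconj : (P : Subgroup G) ⊓ cj (g⁻¹ * (m : G) * a) P =
            cj g⁻¹ (cj g (P : Subgroup G) ⊓ cj ((m : G) * a) P) := by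
          ext t
          rw [Subgroup.mem_inf, mem_cj, mem_cj, Subgroup.mem_inf, mem_cj, mem_cj]
          have e1 : g⁻¹ * (g⁻¹⁻¹ * t * g⁻¹) * g = t := by group
          have e2 : ((m : G) * a)⁻¹ * (g⁻¹⁻¹ * t * g⁻¹) * ((m : G) * a) =
              (g⁻¹ * (m : G) * a)⁻¹ * t * (g⁻¹ * (m : G) * a) := by group
          rw [e1, e2]
        refine ih _ ?_ (g⁻¹ * (m : G) * a) rfl ⟨g⁻¹ * x * g, ?_, ?_⟩
        · rw [hconj, card_cj]
          have h1 : Nat.card R < Nat.card (cj g (P : Subgroup G) ⊓ cj ((m : G) * a) P :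
              Subgroup G) := by
            refine (card_lt (R := R) (T := cj g (P : Subgroup G) ⊓ M) (le_inf inf_le_right hRM)
              ⟨hz'P, hz'M⟩ hz'R).trans_le (Subgroup.card_le_of_le ?_)
            exact le_inf inf_le_left hT₁
          have h2 : Nat.card (cj g (P : Subgroup G) ⊓ cj ((m : G) * a) P : Subgroup G) ≤
              Nat.card P := by
            rw [← hcj]
            exact Subgroup.card_le_of_le inf_le_left
          omega
        · rw [hconj, mem_cj]
          have e1 : g⁻¹⁻¹ * (g⁻¹ * x * g) * g⁻¹ = x := by group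
          rw [e1]
          exact ⟨hx.2, hT₁ ⟨hx.2, hRM hx⟩⟩
        · rw [l_conj', hlx]
      have h5 := H.mul_mem (H.mul_mem (hMH m.2) haH) (H.inv_mem hgma)
      have h6 : (m : G) * a * (g⁻¹ * (m : G) * a)⁻¹ = g := by group
      rwa [h6] at h5

end Pool.Agent.Q21.CO
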